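import Pool.Agent.NH17.Leo.Exp

/-!
Leonard triples containing the Krawtchouk pair `e + f`, `h`: sufficiency of the conditions.
-/

namespace Pool.Agent.NH17.Leo

open Matrix

variable {K : Type*} [Field K] {n d : ℕ}

lemma half_smul [CharZero K] (c : K) (M : Matrix (Fin n) (Fin n) K) :
    ((1 / 2 : ℚ) • (c • M)) = (c / 2) • M := by
  rw [← algebraMap_smul K (1 / 2 : ℚ) (c • M), smul_smul]
  congr 1
  simp
  ring

lemma conj_of {N M D₁ D₂ : Matrix (Fin n) (Fin n) K} [CharZero K] (hN : IsNilpotent N)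
    (h1 : N * M = M * N + D₁)
    (h2 : N * D₁ = D₁ * N + D₂) (h3 : N * D₂ = D₂ * N) :
    IsNilpotent.exp N * M * IsNilpotent.exp (-N) = (M + D₁ + (1 / 2 : ℚ) • D₂) := by
  rw [exp_conj N M D₁ D₂ hN h1 h2 h3, mul_assoc, IsNilpotent.exp_mul_exp_neg_self hN, mul_one]

lemma conj_up [CharZero K] (s : K) : ∃ U V : Matrix (Fin (d + 1)) (Fin (d + 1)) K,
    U * V = 1 ∧ V * U = 1 ∧ U * mE K d * V = mE K d ∧
      U * mH K d * V = mH K d - (2 * s) • mE K d ∧
      U * mF K d * V = mF K d + s • mH K d - s ^ 2 • mE K d := by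
  have hN : IsNilpotent (s • mE K d) :=
    ⟨d + 1, nilp_of_band one_ne_zero (isBand_mE.smul s)⟩
  refine ⟨IsNilpotent.exp (s • mE K d), IsNilpotent.exp (-(s • mE K d)),
    IsNilpotent.exp_mul_exp_neg_self hN, IsNilpotent.exp_neg_mul_exp_self hN, ?_, ?_, ?_⟩
  · rw [conj_of (D₁ := 0) (D₂ := 0) hN]
    · simp
    · simp
    · simp
    · simp
  · rw [conj_of (D₁ := (-(2 * s)) • mE K d) (D₂ := 0) hN]
    · simp [sub_eq_add_neg]
    · simp only [smul_mul_assoc, mul_smul_comm, rHE]; module
    · simp only [smul_mul_assoc, mul_smul_comm]; module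
    · simp
  · rw [conj_of (D₁ := s • mH K d) (D₂ := (-(2 * s ^ 2)) • mE K d) hN]
    · rw [half_smul]; module
    · simp only [smul_mul_assoc, mul_smul_comm, rEF]; module
    · simp only [smul_mul_assoc, mul_smul_comm, rHE]; module
    · simp only [smul_mul_assoc, mul_smul_comm]; module

lemma conj_dn [CharZero K] (u : K) : ∃ U V : Matrix (Fin (d + 1)) (Fin (d + 1)) K,
    U * V = 1 ∧ V * U = 1 ∧ U * mF K d * V = mF K d ∧
      U * mH K d * V = mH K d + (2 * u) • mF K d ∧
      U * mE K d * V = mE K d - u • mH K d - u ^ 2 • mF K d := by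
  have hN : IsNilpotent (u • mF K d) :=
    ⟨d + 1, nilp_of_band (by norm_num) (isBand_mF.smul u)⟩
  refine ⟨IsNilpotent.exp (u • mF K d), IsNilpotent.exp (-(u • mF K d)),
    IsNilpotent.exp_mul_exp_neg_self hN, IsNilpotent.exp_neg_mul_exp_self hN, ?_, ?_, ?_⟩
  · rw [conj_of (D₁ := 0) (D₂ := 0) hN]
    · simp
    · simp
    · simp
    · simp
  · rw [conj_of (D₁ := (2 * u) • mF K d) (D₂ := 0) hN]
    · simp
    · simp only [smul_mul_assoc, mul_smul_comm, rHF]; module
    · simp only [smul_mul_assoc, mul_smul_comm]; module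
    · simp
  · rw [conj_of (D₁ := (-u) • mH K d) (D₂ := (-(2 * u ^ 2)) • mF K d) hN]
    · rw [half_smul]; module
    · simp only [smul_mul_assoc, mul_smul_comm, rEF]; module
    · simp only [smul_mul_assoc, mul_smul_comm, rHF]; module
    · simp only [smul_mul_assoc, mul_smul_comm]; module

/-- diagonalisation of the semisimple elements -/
lemma diagonalise [CharZero K] [IsAlgClosed K] (x y z : K) (h : y ^ 2 + x * z ≠ 0) :
    ∃ (P Q : Matrix (Fin (d + 1)) (Fin (d + 1)) K) (l : K), P * Q = 1 ∧ Q * P = 1 ∧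
      P * (x • mE K d + y • mH K d + z • mF K d) * Q = l • mH K d ∧
      ∀ x' y' z' : K, ∃ e m f : K,
        P * (x' • mE K d + y' • mH K d + z' • mF K d) * Q = e • mE K d + m • mH K d + f • mF K d ∧
        l ^ 2 * e * f = (y ^ 2 + x * z) * (y' ^ 2 + x' * z') -
          (y * y' + (x * z' + x' * z) / 2) ^ 2 := by
  obtain ⟨s, l, hl, hs⟩ : ∃ s l : K, l = y + s * z ∧ s ^ 2 * z + 2 * s * y = x := by
    by_cases hz : z = 0
    · subst hz
      have hy : y ≠ 0 := by rintro rfl; simp at h
      exact ⟨x / (2 * y), y, by ring, by field_simp; ring⟩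
    · obtain ⟨l, hl⟩ := IsAlgClosed.exists_pow_nat_eq (y ^ 2 + x * z) (n := 2) (by norm_num)
      refine ⟨(l - y) / z, l, by field_simp; ring, ?_⟩
      field_simp
      linear_combination hl
  have hl2 : l ^ 2 = y ^ 2 + x * z := by rw [hl]; linear_combination z * hs
  have hl0 : l ≠ 0 := by
    intro h0; apply h; rw [← hl2, h0]; ring
  obtain ⟨U, V, uv, vu, uE, uH, uF⟩ := conj_up (d := d) s
  obtain ⟨U', V', uv', vu', uF', uH', uE'⟩ := conj_dn (K := K) (d := d) (-z / (2 * l))
  have gen : ∀ a b c : K, (U' * U) * (a • mE K d + b • mH K d + c • mF K d) * (V * V') =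
      (a - 2 * s * b - s ^ 2 * c) • (mE K d - (-z / (2 * l)) • mH K d
        - (-z / (2 * l)) ^ 2 • mF K d) + (b + s * c) • (mH K d + (2 * (-z / (2 * l))) • mF K d)
        + c • mF K d := by
    intro a b c
    have : (U' * U) * (a • mE K d + b • mH K d + c • mF K d) * (V * V') =
        U' * (a • (U * mE K d * V) + b • (U * mH K d * V) + c • (U * mF K d * V)) * V' := by
      simp only [mul_add, add_mul, mul_smul_comm, smul_mul_assoc, mul_assoc]
    rw [this, uE, uH, uF]
    have : U' * (a • mE K d + b • (mH K d - (2 * s) • mE K d) +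
        c • (mF K d + s • mH K d - s ^ 2 • mE K d)) * V' =
        (a - 2 * s * b - s ^ 2 * c) • (U' * mE K d * V') + (b + s * c) • (U' * mH K d * V') +
          c • (U' * mF K d * V') := by
      simp only [mul_add, add_mul, mul_sub, sub_mul, mul_smul_comm, smul_mul_assoc, mul_assoc]
      module
    rw [this, uE', uH', uF']
  refine ⟨U' * U, V * V', l, ?_, ?_, ?_, ?_⟩
  · rw [mul_assoc, ← mul_assoc U, uv, one_mul, uv']
  · rw [mul_assoc, ← mul_assoc V', vu', one_mul, vu]
  · rw [gen, show x - 2 * s * y - s ^ 2 * z = 0 by linear_combination -hs,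
      show y + s * z = l by rw [hl], zero_smul, zero_add, smul_add, smul_smul,
      show l * (2 * (-z / (2 * l))) = -z by field_simp]
    module
  · intro x' y' z'
    refine ⟨x' - 2 * s * y' - s ^ 2 * z', (y' + s * z') - (-z / (2 * l)) *
      (x' - 2 * s * y' - s ^ 2 * z'), z' + 2 * (-z / (2 * l)) * (y' + s * z')
      - (-z / (2 * l)) ^ 2 * (x' - 2 * s * y' - s ^ 2 * z'), ?_, ?_⟩
    · rw [gen]; module
    · rw [← hl2]
      have hx : x = s ^ 2 * z + 2 * s * y := hs.symm
      have hy : y = l - s * z := by rw [hl]; ring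
      rw [hx, hy]
      field_simp
      ring

lemma irred_of [CharZero K] (a e m f : K) (he : e ≠ 0) (hf : f ≠ 0) :
    IrredTridiag (a • 1 + (e • mE K d + m • mH K d + f • mF K d)) := by
  constructor
  · intro i j hij
    have : i ≠ j := by rintro rfl; omega
    simp only [Matrix.add_apply, Matrix.smul_apply, Matrix.one_apply_ne this, mE, mF, mH, up, dn,
      dg]
    rw [if_neg (by omega), if_neg (by omega), if_neg (by omega)]; simp
  · intro i j hij
    have : i ≠ j := by rintro rfl; omega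
    simp only [Matrix.add_apply, Matrix.smul_apply, Matrix.one_apply_ne this, mE, mF, mH, up, dn,
      dg, smul_eq_mul]
    rcases hij with h | h
    · rw [if_pos h, if_neg (by omega), if_neg (by omega)]
      have : (d : K) - (i : ℕ) ≠ 0 := by
        rw [sub_ne_zero]; exact_mod_cast (by omega : d ≠ (i : ℕ))
      simpa using ⟨he, this⟩
    · rw [if_neg (by omega), if_neg (by omega), if_pos h]
      have : ((j : ℕ) : K) + 1 ≠ 0 := Nat.cast_add_one_ne_zero _
      simpa using ⟨hf, this⟩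

lemma diag_of (a l : K) : (a • (1 : Matrix (Fin (d + 1)) (Fin (d + 1)) K) + l • mH K d).IsDiag := by
  intro i j hij
  have : (i : ℕ) ≠ j := fun h => hij (Fin.ext h)
  simp [Matrix.one_apply_ne hij, mH, dg, this]

/-! ### bases -/

lemma basis_of {P Q : Matrix (Fin (d + 1)) (Fin (d + 1)) K} (h : P * Q = 1) (h' : Q * P = 1) :
    ∃ b : Module.Basis (Fin (d + 1)) K (Fin (d + 1) → K), ∀ M : Matrix (Fin (d + 1)) (Fin (d + 1)) K,
      LinearMap.toMatrix b b (Matrix.toLin' M) = P * M * Q := by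
  refine ⟨(Pi.basisFun K (Fin (d + 1))).map (Matrix.toLin'OfInv h h'), fun M => ?_⟩
  rw [LinearMap.toMatrix_map_left, LinearMap.toMatrix_map_right]
  have : ((Matrix.toLin'OfInv h h').symm.toLinearMap ∘ₗ
      (Matrix.toLin' M ∘ₗ (Matrix.toLin'OfInv h h').toLinearMap)) = Matrix.toLin' (P * M * Q) := by
    rw [mul_assoc, Matrix.toLin'_mul, Matrix.toLin'_mul]
    rfl
  rw [this, LinearMap.toMatrix_eq_toMatrix', LinearMap.toMatrix'_toLin']

/-- a basis gives an automorphism of the matrix algebra -/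
lemma aut_of {n : ℕ} (b : Module.Basis (Fin n) K (Fin (d + 1) → K)) :
    ∃ (h : n = d + 1) (φ : Matrix (Fin (d + 1)) (Fin (d + 1)) K ≃ₐ[K]
      Matrix (Fin (d + 1)) (Fin (d + 1)) K), ∀ M,
      LinearMap.toMatrix b b (Matrix.toLin' M) = (φ M).submatrix (Fin.cast h) (Fin.cast h) := by
  have hn : n = d + 1 := by
    have := Module.finrank_eq_card_basis b
    simpa using this.symm
  subst hn
  exact ⟨rfl, (Matrix.toLinAlgEquiv').trans (LinearMap.toMatrixAlgEquiv b), fun M => rfl⟩

end Pool.Agent.NH17.Leo
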