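import Pool.Agent.NH17.Leo.Defs

/-!
Leonard triples containing the Krawtchouk pair `e + f`, `h`: matrices and bands.
-/

namespace Pool.Agent.NH17.Leo

open Matrix

variable {K : Type*} [Field K] {n d : ℕ}

/-- superdiagonal matrix -/
def up (x : ℕ → K) : Matrix (Fin n) (Fin n) K := fun i j => if (i : ℕ) + 1 = j then x i else 0

/-- subdiagonal matrix -/
def dn (x : ℕ → K) : Matrix (Fin n) (Fin n) K := fun i j => if (j : ℕ) + 1 = i then x j else 0

/-- diagonal matrix -/
def dg (x : ℕ → K) : Matrix (Fin n) (Fin n) K := fun i j => if (i : ℕ) = j then x i else 0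

/-- the matrix is concentrated on the `k`-th diagonal -/
def IsBand (k : ℤ) (M : Matrix (Fin n) (Fin n) K) : Prop :=
  ∀ i j : Fin n, ((j : ℕ) : ℤ) ≠ (i : ℕ) + k → M i j = 0

lemma IsBand.mul {k l : ℤ} {M N : Matrix (Fin n) (Fin n) K} (hM : IsBand k M) (hN : IsBand l N) :
    IsBand (k + l) (M * N) := by
  intro i j h
  rw [Matrix.mul_apply]
  apply Finset.sum_eq_zero
  intro m _
  by_cases h1 : ((m : ℕ) : ℤ) = (i : ℕ) + k
  · rw [hN m j (by omega), mul_zero]
  · rw [hM i m h1, zero_mul]

lemma IsBand.mul' {k l m : ℤ} {M N : Matrix (Fin n) (Fin n) K} (hM : IsBand k M) (hN : IsBand l N)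
    (h : k + l = m) : IsBand m (M * N) := h ▸ hM.mul hN

lemma IsBand.add {k : ℤ} {M N : Matrix (Fin n) (Fin n) K} (hM : IsBand k M) (hN : IsBand k N) :
    IsBand k (M + N) := by
  intro i j h; rw [Matrix.add_apply, hM i j h, hN i j h, add_zero]

lemma IsBand.sub {k : ℤ} {M N : Matrix (Fin n) (Fin n) K} (hM : IsBand k M) (hN : IsBand k N) :
    IsBand k (M - N) := by
  intro i j h; rw [Matrix.sub_apply, hM i j h, hN i j h, sub_zero]

lemma IsBand.smul {k : ℤ} {M : Matrix (Fin n) (Fin n) K} (hM : IsBand k M) (c : K) :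
    IsBand k (c • M) := by
  intro i j h; rw [Matrix.smul_apply, hM i j h, smul_zero]

lemma isBand_one : IsBand 0 (1 : Matrix (Fin n) (Fin n) K) := by
  intro i j h
  rw [Matrix.one_apply_ne]
  rintro rfl
  simp at h

lemma isBand_up (x : ℕ → K) : IsBand 1 (up x : Matrix (Fin n) (Fin n) K) := by
  intro i j h
  simp only [up]
  rw [if_neg (by omega)]

lemma isBand_dn (x : ℕ → K) : IsBand (-1) (dn x : Matrix (Fin n) (Fin n) K) := by
  intro i j h
  simp only [dn]
  rw [if_neg (by omega)]

lemma isBand_dg (x : ℕ → K) : IsBand 0 (dg x : Matrix (Fin n) (Fin n) K) := by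
  intro i j h
  simp only [dg]
  rw [if_neg (by omega)]

/-- band separation -/
lemma sep {A3 A2 A1 A0 B1 B2 B3 : Matrix (Fin n) (Fin n) K}
    (a3 : IsBand 3 A3) (a2 : IsBand 2 A2) (a1 : IsBand 1 A1) (a0 : IsBand 0 A0)
    (b1 : IsBand (-1) B1) (b2 : IsBand (-2) B2) (b3 : IsBand (-3) B3)
    (h : A3 + A2 + A1 + A0 + B1 + B2 + B3 = 0) :
    A3 = 0 ∧ A2 = 0 ∧ A1 = 0 ∧ A0 = 0 ∧ B1 = 0 ∧ B2 = 0 ∧ B3 = 0 := by
  have key : ∀ i j : Fin n, A3 i j + A2 i j + A1 i j + A0 i j + B1 i j + B2 i j + B3 i j = 0 := by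
    intro i j
    have := congr_fun (congr_fun h i) j
    simpa [Matrix.add_apply] using this
  refine ⟨?_, ?_, ?_, ?_, ?_, ?_, ?_⟩
  · ext i j
    by_cases hij : ((j : ℕ) : ℤ) = (i : ℕ) + 3
    · have := key i j
      rw [a2 i j (by omega), a1 i j (by omega), a0 i j (by omega), b1 i j (by omega),
        b2 i j (by omega), b3 i j (by omega)] at this
      simpa using this
    · simpa using a3 i j hij
  · ext i j
    by_cases hij : ((j : ℕ) : ℤ) = (i : ℕ) + 2
    · have := key i j
      rw [a3 i j (by omega), a1 i j (by omega), a0 i j (by omega), b1 i j (by omega),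
        b2 i j (by omega), b3 i j (by omega)] at this
      simpa using this
    · simpa using a2 i j hij
  · ext i j
    by_cases hij : ((j : ℕ) : ℤ) = (i : ℕ) + 1
    · have := key i j
      rw [a3 i j (by omega), a2 i j (by omega), a0 i j (by omega), b1 i j (by omega),
        b2 i j (by omega), b3 i j (by omega)] at this
      simpa using this
    · simpa using a1 i j hij
  · ext i j
    by_cases hij : ((j : ℕ) : ℤ) = (i : ℕ) + 0
    · have := key i j
      rw [a3 i j (by omega), a2 i j (by omega), a1 i j (by omega), b1 i j (by omega),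
        b2 i j (by omega), b3 i j (by omega)] at this
      simpa using this
    · simpa using a0 i j hij
  · ext i j
    by_cases hij : ((j : ℕ) : ℤ) = (i : ℕ) + (-1)
    · have := key i j
      rw [a3 i j (by omega), a2 i j (by omega), a1 i j (by omega), a0 i j (by omega),
        b2 i j (by omega), b3 i j (by omega)] at this
      simpa using this
    · simpa using b1 i j hij
  · ext i j
    by_cases hij : ((j : ℕ) : ℤ) = (i : ℕ) + (-2)
    · have := key i j
      rw [a3 i j (by omega), a2 i j (by omega), a1 i j (by omega), a0 i j (by omega),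
        b1 i j (by omega), b3 i j (by omega)] at this
      simpa using this
    · simpa using b2 i j hij
  · ext i j
    by_cases hij : ((j : ℕ) : ℤ) = (i : ℕ) + (-3)
    · have := key i j
      rw [a3 i j (by omega), a2 i j (by omega), a1 i j (by omega), a0 i j (by omega),
        b1 i j (by omega), b2 i j (by omega)] at this
      simpa using this
    · simpa using b3 i j hij

/-! ### products -/

lemma up_mul_apply (x : ℕ → K) (M : Matrix (Fin n) (Fin n) K) (i j : Fin n) :
    (up x * M : Matrix (Fin n) (Fin n) K) i j = if h : (i : ℕ) + 1 < n then x i * M ⟨i + 1, h⟩ j else 0 := by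
  rw [Matrix.mul_apply]
  split_ifs with h
  · rw [Finset.sum_eq_single ⟨i + 1, h⟩]
    · simp [up]
    · intro b _ hb
      have : ¬ ((i : ℕ) + 1 = b) := by
        intro h'; apply hb; ext; simp [← h']
      simp [up, this]
    · simp
  · apply Finset.sum_eq_zero
    intro b _
    have : ¬ ((i : ℕ) + 1 = b) := by
      have := b.2; omega
    simp [up, this]

lemma mul_up_apply (x : ℕ → K) (M : Matrix (Fin n) (Fin n) K) (i j : Fin n) :
    (M * up x : Matrix (Fin n) (Fin n) K) i j = if h : 1 ≤ (j : ℕ) then M i ⟨j - 1, by omega⟩ * x (j - 1) else 0 := by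
  rw [Matrix.mul_apply]
  split_ifs with h
  · rw [Finset.sum_eq_single ⟨j - 1, by omega⟩]
    · simp [up, Nat.sub_add_cancel h]
    · intro b _ hb
      have : ¬ ((b : ℕ) + 1 = j) := by
        intro h'; apply hb; ext; simp [← h']
      simp [up, this]
    · simp
  · apply Finset.sum_eq_zero
    intro b _
    have : ¬ ((b : ℕ) + 1 = j) := by omega
    simp [up, this]

lemma dn_mul_apply (x : ℕ → K) (M : Matrix (Fin n) (Fin n) K) (i j : Fin n) :
    (dn x * M : Matrix (Fin n) (Fin n) K) i j = if h : 1 ≤ (i : ℕ) then x (i - 1) * M ⟨i - 1, by omega⟩ j else 0 := by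
  rw [Matrix.mul_apply]
  split_ifs with h
  · rw [Finset.sum_eq_single ⟨i - 1, by omega⟩]
    · simp [dn, Nat.sub_add_cancel h]
    · intro b _ hb
      have : ¬ ((b : ℕ) + 1 = i) := by
        intro h'; apply hb; ext; simp [← h']
      simp [dn, this]
    · simp
  · apply Finset.sum_eq_zero
    intro b _
    have : ¬ ((b : ℕ) + 1 = i) := by omega
    simp [dn, this]

lemma mul_dn_apply (x : ℕ → K) (M : Matrix (Fin n) (Fin n) K) (i j : Fin n) :
    (M * dn x : Matrix (Fin n) (Fin n) K) i j = if h : (j : ℕ) + 1 < n then M i ⟨j + 1, h⟩ * x j else 0 := by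
  rw [Matrix.mul_apply]
  split_ifs with h
  · rw [Finset.sum_eq_single ⟨j + 1, h⟩]
    · simp [dn]
    · intro b _ hb
      have : ¬ ((j : ℕ) + 1 = b) := by
        intro h'; apply hb; ext; simp [← h']
      simp [dn, this]
    · simp
  · apply Finset.sum_eq_zero
    intro b _
    have : ¬ ((j : ℕ) + 1 = b) := by
      have := b.2; omega
    simp [dn, this]

lemma dg_mul_apply (x : ℕ → K) (M : Matrix (Fin n) (Fin n) K) (i j : Fin n) :
    (dg x * M : Matrix (Fin n) (Fin n) K) i j = x i * M i j := by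
  rw [Matrix.mul_apply, Finset.sum_eq_single i]
  · simp [dg]
  · intro b _ hb
    have : ¬ ((i : ℕ) = b) := by
      intro h'; apply hb; ext; simp [← h']
    simp [dg, this]
  · simp

lemma mul_dg_apply (x : ℕ → K) (M : Matrix (Fin n) (Fin n) K) (i j : Fin n) :
    (M * dg x : Matrix (Fin n) (Fin n) K) i j = M i j * x j := by
  rw [Matrix.mul_apply, Finset.sum_eq_single j]
  · simp [dg]
  · intro b _ hb
    have : ¬ ((b : ℕ) = j) := by
      intro h'; apply hb; ext; simp [← h']
    simp [dg, this]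
  · simp

/-- `e`, `f`, `h` -/
def mE (K : Type*) [Field K] (d : ℕ) : Matrix (Fin (d + 1)) (Fin (d + 1)) K :=
  up (fun i => (d : K) - i)
/-- `e`, `f`, `h` -/
def mF (K : Type*) [Field K] (d : ℕ) : Matrix (Fin (d + 1)) (Fin (d + 1)) K :=
  dn (fun i => (i : K) + 1)
/-- `e`, `f`, `h` -/
def mH (K : Type*) [Field K] (d : ℕ) : Matrix (Fin (d + 1)) (Fin (d + 1)) K :=
  dg (fun i => (d : K) - 2 * i)

lemma EF : mE K d * mF K d = dg (fun i => ((d : K) - i) * (i + 1)) := by
  ext i j
  rw [mE, up_mul_apply]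
  simp only [mF, dn, dg]
  have hi := i.2
  have hj := j.2
  split_ifs with h1 h2 h3 h3 h3
  · rw [h3]
  · omega
  · omega
  · simp
  · have : (i : ℕ) = d := by omega
    rw [this]; simp
  · rfl

lemma FE : mF K d * mE K d = dg (fun i => (i : K) * (d - i + 1)) := by
  ext i j
  rw [mF, dn_mul_apply]
  simp only [mE, up, dg]
  have hi := i.2
  have hj := j.2
  split_ifs with h1 h2 h3 h3 h3
  · push_cast [Nat.cast_sub h1]; ring
  · omega
  · omega
  · simp
  · have : (i : ℕ) = 0 := by omega
    rw [this]; simp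
  · rfl

lemma rEF : mE K d * mF K d = mF K d * mE K d + mH K d := by
  rw [EF, FE, mH]
  ext i j
  simp only [dg, Matrix.add_apply]
  split_ifs
  · ring
  · simp

lemma rHE : mH K d * mE K d = mE K d * mH K d + (2 : K) • mE K d := by
  ext i j
  rw [mH, dg_mul_apply, Matrix.add_apply, mul_dg_apply]
  simp only [mE, up, Matrix.smul_apply, smul_eq_mul]
  split_ifs with h
  · rw [← h]; push_cast; ring
  · simp

lemma rHF : mH K d * mF K d = mF K d * mH K d - (2 : K) • mF K d := by
  ext i j
  rw [mH, dg_mul_apply, Matrix.sub_apply, mul_dg_apply]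
  simp only [mF, dn, Matrix.smul_apply, smul_eq_mul]
  split_ifs with h
  · rw [← h]; push_cast; ring
  · simp

/-- Casimir -/
lemma rCas : (4 : K) • (mF K d * mE K d) = ((d : K) * (d + 2)) • 1 - mH K d * mH K d
    - (2 : K) • mH K d := by
  rw [FE]
  ext i j
  rw [Matrix.sub_apply, Matrix.sub_apply, mH, dg_mul_apply]
  simp only [dg, Matrix.smul_apply, smul_eq_mul]
  by_cases h : i = j
  · subst h; simp; ring
  · have h' : ¬ ((i : ℕ) = j) := fun h' => h (Fin.ext h')
    simp [Matrix.one_apply_ne h, h']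

lemma isBand_mE : IsBand 1 (mE K d) := isBand_up _
lemma isBand_mF : IsBand (-1) (mF K d) := isBand_dn _
lemma isBand_mH : IsBand 0 (mH K d) := isBand_dg _

lemma IsBand.pow {k : ℤ} {M : Matrix (Fin n) (Fin n) K} (hM : IsBand k M) (m : ℕ) :
    IsBand (m * k) (M ^ m) := by
  induction m with
  | zero => simpa using isBand_one
  | succ m ih => rw [pow_succ]; exact ih.mul' hM (by push_cast; ring)

lemma nilp_of_band {k : ℤ} (hk : k ≠ 0) {M : Matrix (Fin n) (Fin n) K} (hM : IsBand k M) :
    M ^ n = 0 := by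
  ext i j
  apply hM.pow n
  have hi := i.2
  have hj := j.2
  rcases lt_or_gt_of_ne hk with h | h
  · intro h'
    have : (n : ℤ) * k ≤ n * (-1) := by
      apply mul_le_mul_of_nonneg_left (by omega) (by positivity)
    omega
  · intro h'
    have : (n : ℤ) * 1 ≤ n * k := by
      apply mul_le_mul_of_nonneg_left (by omega) (by positivity)
    omega

end Pool.Agent.NH17.Leo
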