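import Mathlib

/-!
Leonard triples, and the pair of matrices `A`, `A*`.
-/

namespace Pool.Agent.NH17.Leo

/-- `M` is irreducible tridiagonal: the entries `(i, j)` with `|i - j| > 1` are zero and the
entries `(i, j)` with `|i - j| = 1` are nonzero. -/
def IrredTridiag {K : Type*} [Field K] {n : ℕ} (M : Matrix (Fin n) (Fin n) K) : Prop :=
  (∀ i j : Fin n, (i : ℕ) + 1 < j ∨ (j : ℕ) + 1 < i → M i j = 0) ∧
  (∀ i j : Fin n, (i : ℕ) + 1 = j ∨ (j : ℕ) + 1 = i → M i j ≠ 0)

/-- There is a basis of `V` in which `X` is represented by a diagonal matrix and `Y` and `Z` are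
represented by irreducible tridiagonal matrices. -/
def DiagTriTri {K V : Type*} [Field K] [AddCommGroup V] [Module K V] (X Y Z : V →ₗ[K] V) : Prop :=
  ∃ (n : ℕ) (b : Module.Basis (Fin n) K V), (LinearMap.toMatrix b b X).IsDiag ∧
    IrredTridiag (LinearMap.toMatrix b b Y) ∧ IrredTridiag (LinearMap.toMatrix b b Z)

/-- `(A, B, C)` is a Leonard triple: for each of the three choices of one of the three maps there
is a basis in which this map is diagonal and the two other ones are irreducible tridiagonal. -/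
def IsLeonardTriple {K V : Type*} [Field K] [AddCommGroup V] [Module K V]
    (A B C : V →ₗ[K] V) : Prop :=
  DiagTriTri A B C ∧ DiagTriTri B A C ∧ DiagTriTri C A B

/-- The matrix `A`: `A (i, i+1) = d - i`, `A (i+1, i) = i + 1`, all other entries zero. -/
def matA (K : Type*) [Field K] (d : ℕ) : Matrix (Fin (d + 1)) (Fin (d + 1)) K :=
  Matrix.of fun i j =>
    if (i : ℕ) + 1 = j then (d : K) - (i : ℕ) else if (j : ℕ) + 1 = i then ((j : ℕ) : K) + 1 else 0

/-- The matrix `A* = diag (d, d - 2, …, -d)`. -/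
def matAstar (K : Type*) [Field K] (d : ℕ) : Matrix (Fin (d + 1)) (Fin (d + 1)) K :=
  Matrix.diagonal fun i => (d : K) - 2 * (i : ℕ)

end Pool.Agent.NH17.Leo
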