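import Pool.Agent.NH17.Leo.Forward2

/-!
Leonard triples containing the Krawtchouk pair `e + f`, `h`: conjugation by exponentials.
-/

namespace Pool.Agent.NH17.Leo

open Matrix

section exp

variable {R : Type*} [Ring R] [Module ℚ R]

lemma pow_mul_comm_two (N M D₁ D₂ : R) (h1 : N * M = M * N + D₁) (h2 : N * D₁ = D₁ * N + D₂)
    (h3 : N * D₂ = D₂ * N) (k : ℕ) :
    N ^ (k + 2) * M = M * N ^ (k + 2) + (k + 2) • (D₁ * N ^ (k + 1)) +
      ((k + 2).choose 2) • (D₂ * N ^ k) := by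
  induction k with
  | zero =>
    simp only [zero_add, pow_one, pow_zero, mul_one, Nat.choose_self, one_smul]
    rw [pow_two, mul_assoc, h1, mul_add, ← mul_assoc, h1, h2]
    noncomm_ring
  | succ k ih =>
    rw [pow_succ' N (k + 2), mul_assoc, ih, mul_add, mul_add, ← mul_assoc, h1, mul_smul_comm,
      mul_smul_comm, ← mul_assoc N D₁, h2, ← mul_assoc N D₂, h3]
    rw [show (k + 1 + 2).choose 2 = (k + 2) + (k + 2).choose 2 from by
      rw [Nat.choose_succ_succ' (k + 2) 1, Nat.choose_one_right]]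
    have e1 : N ^ (k + 2) = N * (N * N ^ k) := by rw [pow_succ' N (k + 1), pow_succ' N k]
    have e2 : N ^ (k + 1) = N * N ^ k := pow_succ' N k
    rw [show k + 1 + 1 = k + 2 from rfl, e1, e2]
    simp only [add_mul, mul_assoc, smul_add, add_smul, one_smul]
    abel

lemma exp_conj (N M D₁ D₂ : R) [SMulCommClass ℚ R R] [IsScalarTower ℚ R R] (hN : IsNilpotent N)
    (h1 : N * M = M * N + D₁)
    (h2 : N * D₁ = D₁ * N + D₂) (h3 : N * D₂ = D₂ * N) :
    IsNilpotent.exp N * M = (M + D₁ + (1 / 2 : ℚ) • D₂) * IsNilpotent.exp N := by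
  obtain ⟨m, hm⟩ := hN
  have e2 := IsNilpotent.exp_eq_sum (a := N) (k := m + 2) (pow_eq_zero_of_le (by omega) hm)
  have e1 := IsNilpotent.exp_eq_sum (a := N) (k := m + 1) (pow_eq_zero_of_le (by omega) hm)
  have e0 := IsNilpotent.exp_eq_sum (a := N) (k := m) hm
  rw [add_mul, add_mul]
  nth_rewrite 3 [e1]
  nth_rewrite 3 [e0]
  rw [e2, Finset.sum_mul]
  rw [Finset.sum_range_succ', Finset.sum_range_succ' _ m]
  rw [Finset.sum_range_succ' (fun i => ((i.factorial : ℚ)⁻¹) • N ^ i) (m + 1),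
    Finset.sum_range_succ' (fun i => (((i + 1).factorial : ℚ)⁻¹) • N ^ (i + 1)) m]
  rw [Finset.sum_range_succ' (fun i => ((i.factorial : ℚ)⁻¹) • N ^ i) m]
  have key : ∀ k, (((k + 1 + 1).factorial : ℚ)⁻¹ • N ^ (k + 1 + 1)) * M =
      M * ((((k + 1 + 1).factorial : ℚ)⁻¹) • N ^ (k + 1 + 1)) +
      D₁ * ((((k + 1).factorial : ℚ)⁻¹) • N ^ (k + 1)) +
      ((1 / 2 : ℚ) • D₂) * (((k.factorial : ℚ)⁻¹) • N ^ k) := by
    intro k
    rw [smul_mul_assoc, show k + 1 + 1 = k + 2 from rfl, pow_mul_comm_two N M D₁ D₂ h1 h2 h3]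
    rw [smul_add, smul_add, mul_smul_comm, mul_smul_comm, mul_smul_comm, smul_mul_assoc]
    have hf : ((k.factorial : ℚ)) ≠ 0 := by exact_mod_cast Nat.factorial_ne_zero k
    have c1 : ((k + 2).factorial : ℚ)⁻¹ * ((k + 2 : ℕ) : ℚ) = ((k + 1).factorial : ℚ)⁻¹ := by
      rw [Nat.factorial_succ (k + 1)]
      have hf1 : (((k + 1).factorial : ℚ)) ≠ 0 := by exact_mod_cast Nat.factorial_ne_zero (k + 1)
      have hf2 : ((k : ℚ) + 1 + 1) ≠ 0 := by positivity
      push_cast
      field_simp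
      ring
    have c2 : ((k + 2).factorial : ℚ)⁻¹ * (((k + 2).choose 2 : ℕ) : ℚ) =
        ((k).factorial : ℚ)⁻¹ * (1 / 2) := by
      have h := Nat.choose_mul_factorial_mul_factorial (n := k + 2) (k := 2) (by omega)
      have h' : (((k + 2).choose 2 : ℕ) : ℚ) * 2 * (k.factorial : ℚ) = ((k + 2).factorial : ℚ) := by
        rw [← h]; simp [Nat.factorial]
      have hf1 : (((k + 2).factorial : ℚ)) ≠ 0 := by exact_mod_cast Nat.factorial_ne_zero (k + 2)
      field_simp
      linear_combination h'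
    rw [← Nat.cast_smul_eq_nsmul ℚ (k + 2), ← Nat.cast_smul_eq_nsmul ℚ ((k + 2).choose 2),
      smul_smul, smul_smul, c1, c2, smul_smul]
  rw [Finset.sum_congr rfl (fun k _ => key k), Finset.sum_add_distrib, Finset.sum_add_distrib]
  simp only [mul_add, Finset.mul_sum, zero_add, Nat.factorial, Nat.cast_one, inv_one, one_smul,
    pow_zero, mul_one, pow_one, add_mul, one_mul, h1, Nat.mul_one]
  abel

end exp

end Pool.Agent.NH17.Leo
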