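import Pool.Agent.NH17.Leo.Main

/-!
Leonard triples containing the Krawtchouk pair `e + f`, `h`: the two final statements.
-/

namespace Pool.Agent.NH17.Leo

open Matrix

variable {K : Type*} [Field K] {n d : ℕ}

lemma zero_case (X Y Z : Matrix (Fin (0 + 1)) (Fin (0 + 1)) K) :
    DiagTriTri (Matrix.toLin' X) (Matrix.toLin' Y) (Matrix.toLin' Z) := by
  refine diagTri_bwd (P := 1) (Q := 1) (one_mul _) (one_mul _) ?_ ?_ ?_
  · intro i j hij; exact absurd (Fin.ext (by omega)) hij
  · constructor
    · intro i j hij; have := i.2; have := j.2; omega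
    · intro i j hij; have := i.2; have := j.2; omega
  · constructor
    · intro i j hij; have := i.2; have := j.2; omega
    · intro i j hij; have := i.2; have := j.2; omega

/-- the classification -/
theorem classification [CharZero K] [IsAlgClosed K] (d : ℕ)
    (X : Matrix (Fin (d + 1)) (Fin (d + 1)) K) :
    IsLeonardTriple (Matrix.toLin' (matA K d)) (Matrix.toLin' (matAstar K d)) (Matrix.toLin' X) ↔
      d = 0 ∨
      (∃ a b c g : K, b ^ 2 ≠ 4 * g ^ 2 ∧ c ^ 2 ≠ 4 * g ^ 2 ∧ b ^ 2 + c ^ 2 ≠ 4 * g ^ 2 ∧
        X = a • 1 + b • matA K d + c • matAstar K d +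
          g • (matA K d * matAstar K d - matAstar K d * matA K d)) ∨
      (d = 2 ∧ ∃ a g t : K, t ^ 2 ≠ g ^ 2 ∧
        X = a • 1 + g • (matA K d * matAstar K d - matAstar K d * matA K d) +
          t • (matA K d * matAstar K d + matAstar K d * matA K d)) := by
  rw [matA_eq, matAstar_eq]
  constructor
  · rintro ⟨h1, h2, h3⟩
    by_cases hd : d = 0
    · exact Or.inl hd
    right
    obtain ⟨φ₁, h1⟩ := diagTri_fwd h1
    obtain ⟨φ₂, h2⟩ := diagTri_fwd h2
    obtain ⟨φ₃, h3⟩ := diagTri_fwd h3
    exact forward (by omega) X φ₁ φ₂ φ₃ h1 h2 h3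
  · rintro (hd | ⟨a, b, c, g, h1, h2, h3, rfl⟩ | ⟨rfl, a, g, t, h, rfl⟩)
    · subst hd
      exact ⟨zero_case _ _ _, zero_case _ _ _, zero_case _ _ _⟩
    · exact backward1 a b c g h1 h2 h3
    · exact backward2 a g t h

lemma mem_span_four (P Q R S Y : Matrix (Fin (d + 1)) (Fin (d + 1)) K) :
    Y ∈ Submodule.span K ({P, Q, R, S} : Set (Matrix (Fin (d + 1)) (Fin (d + 1)) K)) ↔
      ∃ p q r s : K, Y = p • P + q • Q + r • R + s • S := by
  rw [Submodule.mem_span_insert]
  constructor
  · rintro ⟨p, z, hz, rfl⟩
    rw [Submodule.mem_span_insert] at hz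
    obtain ⟨q, w, hw, rfl⟩ := hz
    rw [Submodule.mem_span_pair] at hw
    obtain ⟨r, s, rfl⟩ := hw
    exact ⟨p, q, r, s, by abel⟩
  · rintro ⟨p, q, r, s, rfl⟩
    refine ⟨p, q • Q + r • R + s • S, ?_, by abel⟩
    rw [Submodule.mem_span_insert]
    refine ⟨q, r • R + s • S, ?_, by abel⟩
    rw [Submodule.mem_span_pair]
    exact ⟨r, s, rfl⟩

lemma not_mem [CharZero K] (hd : 1 ≤ d) (a b c : K) :
    ¬ (mA K d * mH K d - mH K d * mA K d ∈ Submodule.span K
      ({1, mA K d, mH K d, comb d a b c 0} : Set (Matrix (Fin (d + 1)) (Fin (d + 1)) K))) := by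
  rw [mem_span_four]
  rintro ⟨p, q, r, s, h⟩
  have e : mA K d * mH K d - mH K d * mA K d = (2 : K) • mF K d - (2 : K) • mE K d := by
    simp only [mA, mul_add, add_mul, rHE, rHF]; module
  rw [e, comb_eq] at h
  have h0 := congr_fun (congr_fun h ⟨0, by omega⟩) ⟨1, by omega⟩
  have h1 := congr_fun (congr_fun h ⟨1, by omega⟩) ⟨0, by omega⟩
  simp only [mA, Matrix.sub_apply, Matrix.add_apply, Matrix.smul_apply, mE_apply, mF_apply,
    mH_apply, smul_eq_mul, Matrix.one_apply] at h0 h1
  norm_num at h0 h1
  have hd0 : (d : K) ≠ 0 := by exact_mod_cast (by omega : d ≠ 0)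
  have h0' : (d : K) * (q + s * b + 2) = 0 := by linear_combination -h0
  rcases mul_eq_zero.mp h0' with h | h
  · exact hd0 h
  · have : (4 : K) = 0 := by linear_combination h + h1
    norm_num at this

lemma comm_HX (a b c g : K) : mH K d * comb d a b c g - comb d a b c g * mH K d =
    (-b) • (mA K d * mH K d - mH K d * mA K d) - (4 * g) • mA K d := by
  rw [cH_comb]
  simp only [mA, mul_add, add_mul, rHE, rHF]
  module

theorem span_property [CharZero K] [IsAlgClosed K] (d : ℕ)
    (X : Matrix (Fin (d + 1)) (Fin (d + 1)) K)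
    (hX : IsLeonardTriple (Matrix.toLin' (matA K d)) (Matrix.toLin' (matAstar K d))
      (Matrix.toLin' X)) :
    (matA K d * matAstar K d - matAstar K d * matA K d ∈
        Submodule.span K ({1, matA K d, matAstar K d, X} : Set _) ∧
      matAstar K d * X - X * matAstar K d ∈
        Submodule.span K ({1, matA K d, matAstar K d, X} : Set _) ∧
      X * matA K d - matA K d * X ∈
        Submodule.span K ({1, matA K d, matAstar K d, X} : Set _)) ↔
      (d = 0 ∨ ∃ a b c g : K, g ≠ 0 ∧
        X = a • 1 + b • matA K d + c • matAstar K d +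
          g • (matA K d * matAstar K d - matAstar K d * matA K d)) := by
  have hX' := (classification d X).mp hX
  rw [matA_eq, matAstar_eq] at hX' ⊢
  constructor
  · rintro ⟨h1, -, -⟩
    by_cases hd : d = 0
    · exact Or.inl hd
    right
    rcases hX' with h | ⟨a, b, c, g, -, -, -, h⟩ | ⟨rfl, a, g, t, hgt, h⟩
    · exact absurd h hd
    · by_cases hg : g = 0
      · exfalso
        subst hg
        rw [h] at h1
        exact not_mem (by omega) a b c h1
      · exact ⟨a, b, c, g, hg, h⟩
    · by_cases ht : t = 0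
      · subst ht
        refine ⟨a, 0, 0, g, ?_, ?_⟩
        · rintro rfl; exact hgt rfl
        · rw [h]; module
      · exfalso
        rw [mem_span_four] at h1
        obtain ⟨p, q, r, s, h1⟩ := h1
        have hX2 := X2 a 0 0 g t
        have hX3 : X = !![a + 2 * 0, 2 * (0 - 2 * g) + 4 * t, 0;
            0 + 2 * g + 2 * t, a, 0 - 2 * g - 2 * t;
            0, 2 * (0 + 2 * g) - 4 * t, a - 2 * 0] := by
          rw [← hX2, h, comb]; module
        rw [hX3, mA2, mH2] at h1
        have e01 := congr_fun (congr_fun h1 0) 1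
        have e10 := congr_fun (congr_fun h1 1) 0
        have e12 := congr_fun (congr_fun h1 1) 2
        have e21 := congr_fun (congr_fun h1 2) 1
        simp [Matrix.mul_apply, Fin.sum_univ_three] at e01 e10 e12 e21
        have q0 : q = 0 := by linear_combination -(e01 + e21) / 4
        have a1 : s * (t + g) = 1 := by linear_combination (- e10 - q0 ) / 2
        have a2 : s * (t - g) = -1 := by linear_combination (- e01 - 2 * q0) / 4
        have : (2 * t) * s = 0 := by linear_combination a1 + a2
        rcases mul_eq_zero.mp this with h | h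
        · exact ht (by simpa using h)
        · rw [h] at a1; simp at a1
  · rintro (hd | ⟨a, b, c, g, hg, rfl⟩)
    · subst hd
      have comm : ∀ M N : Matrix (Fin (0 + 1)) (Fin (0 + 1)) K, M * N - N * M = 0 := by
        intro M N
        ext i j
        have hi : i = 0 := Fin.ext (by omega)
        have hj : j = 0 := Fin.ext (by omega)
        subst hi; subst hj
        simp [Matrix.mul_apply, mul_comm]
      rw [comm, comm, comm]
      exact ⟨zero_mem _, zero_mem _, zero_mem _⟩
    · change mA K d * mH K d - mH K d * mA K d ∈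
        Submodule.span K ({1, mA K d, mH K d, comb d a b c g} : Set _) ∧
        mH K d * comb d a b c g - comb d a b c g * mH K d ∈
        Submodule.span K ({1, mA K d, mH K d, comb d a b c g} : Set _) ∧
        comb d a b c g * mA K d - mA K d * comb d a b c g ∈
        Submodule.span K ({1, mA K d, mH K d, comb d a b c g} : Set _)
      set S := Submodule.span K ({1, mA K d, mH K d, comb d a b c g} :
        Set (Matrix (Fin (d + 1)) (Fin (d + 1)) K)) with hS
      have m1 : (1 : Matrix (Fin (d + 1)) (Fin (d + 1)) K) ∈ S := Submodule.subset_span (by simp)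
      have mA' : mA K d ∈ S := Submodule.subset_span (by simp)
      have mH' : mH K d ∈ S := Submodule.subset_span (by simp)
      have mX' : comb d a b c g ∈ S := Submodule.subset_span (by simp)
      have mC : mA K d * mH K d - mH K d * mA K d ∈ S := by
        have : mA K d * mH K d - mH K d * mA K d = (1 / g) • (comb d a b c g - a • 1 - b • mA K d
            - c • mH K d) := by
          rw [comb]
          rw [show (a • 1 + b • mA K d + c • mH K d + g • (mA K d * mH K d - mH K d * mA K d) -
            a • 1 - b • mA K d - c • mH K d) = g • (mA K d * mH K d - mH K d * mA K d) by module,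
            smul_smul, one_div, inv_mul_cancel₀ hg, one_smul]
        rw [this]
        exact S.smul_mem _ (S.sub_mem (S.sub_mem (S.sub_mem mX' (S.smul_mem _ m1))
          (S.smul_mem _ mA')) (S.smul_mem _ mH'))
      refine ⟨mC, ?_, ?_⟩
      · rw [comm_HX]
        exact S.sub_mem (S.smul_mem _ mC) (S.smul_mem _ mA')
      · rw [← neg_sub, cA_comb]
        exact S.neg_mem (S.add_mem (S.smul_mem _ mC) (S.smul_mem _ mH'))

theorem counterexample [CharZero K] [IsAlgClosed K] (d : ℕ) (hd : 1 ≤ d) :
    IsLeonardTriple (Matrix.toLin' (matA K d)) (Matrix.toLin' (matAstar K d))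
      (Matrix.toLin' (matA K d + matAstar K d)) ∧
    matA K d * matAstar K d - matAstar K d * matA K d ∉
        Submodule.span K ({1, matA K d, matAstar K d, matA K d + matAstar K d} : Set _) := by
  rw [matA_eq, matAstar_eq]
  have : mA K d + mH K d = comb d 0 1 1 0 := by simp [comb]
  rw [this]
  refine ⟨backward1 0 1 1 0 (by norm_num) (by norm_num) (by norm_num), not_mem hd 0 1 1⟩

/-- The matrix `X` extends the pair `A`, `A*` to a Leonard triple `(A, A*, X)` on `K^(d+1)`. -/
def Extends (K : Type*) [Field K] (d : ℕ) (X : Matrix (Fin (d + 1)) (Fin (d + 1)) K) : Prop :=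
  IsLeonardTriple (Matrix.toLin' (matA K d)) (Matrix.toLin' (matAstar K d)) (Matrix.toLin' X)

/-- The commutator `[A, A*] = A A* - A* A`. -/
def commA (K : Type*) [Field K] (d : ℕ) : Matrix (Fin (d + 1)) (Fin (d + 1)) K :=
  matA K d * matAstar K d - matAstar K d * matA K d

/-- The linear span of `I`, `A`, `A*` and `X`. -/
def spanX (K : Type*) [Field K] (d : ℕ) (X : Matrix (Fin (d + 1)) (Fin (d + 1)) K) :
    Submodule K (Matrix (Fin (d + 1)) (Fin (d + 1)) K) :=
  Submodule.span K {1, matA K d, matAstar K d, X}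

theorem final_two [CharZero K] [IsAlgClosed K] (d : ℕ) :
    (1 ≤ d → Extends K d (matA K d + matAstar K d) ∧
      commA K d ∉ spanX K d (matA K d + matAstar K d)) ∧
    ∀ X : Matrix (Fin (d + 1)) (Fin (d + 1)) K, Extends K d X →
      ((commA K d ∈ spanX K d X ∧ matAstar K d * X - X * matAstar K d ∈ spanX K d X ∧
        X * matA K d - matA K d * X ∈ spanX K d X) ↔
      (d = 0 ∨ ∃ a b c g : K, g ≠ 0 ∧
        X = a • 1 + b • matA K d + c • matAstar K d + g • commA K d)) :=
  ⟨counterexample d, fun X hX => span_property d X hX⟩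

end Pool.Agent.NH17.Leo
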