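import Pool.Agent.NH17.Leo.Span

/-!
Leonard triples containing the Krawtchouk pair `e + f`, `h`: the five dimensional space.
-/

namespace Pool.Agent.NH17.Leo

open Matrix

variable {K : Type*} [Field K] {n d : ℕ}

section dc
variable {R : Type*} [Ring R]
lemma dc_add (T X Y : R) : dc T (X + Y) = dc T X + dc T Y := by simp only [dc]; noncomm_ring
lemma dc_sub (T X Y : R) : dc T (X - Y) = dc T X - dc T Y := by simp only [dc]; noncomm_ring
end dc

lemma dc_smul (T X : Matrix (Fin n) (Fin n) K) (c : K) : dc T (c • X) = c • dc T X := by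
  simp only [dc, mul_smul_comm, smul_mul_assoc, ← smul_sub]

lemma dc_one (T : Matrix (Fin n) (Fin n) K) : dc T 1 = 0 := by
  simp [dc]

lemma dc_self (T : Matrix (Fin n) (Fin n) K) : dc T T = 0 := by
  simp [dc]

lemma dcA_E : dc (mA K d) (mE K d) = (2 : K) • mE K d - (2 : K) • mF K d := by
  simp only [dc, mA, mul_add, add_mul, mul_sub, sub_mul, smul_mul_assoc, mul_smul_comm, mul_assoc,
    rEF, rHE, rHF, rEF', rHE', rHF', smul_add, smul_sub, smul_smul]
  module

lemma dcA_F : dc (mA K d) (mF K d) = (2 : K) • mF K d - (2 : K) • mE K d := by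
  simp only [dc, mA, mul_add, add_mul, mul_sub, sub_mul, smul_mul_assoc, mul_smul_comm, mul_assoc,
    rEF, rHE, rHF, rEF', rHE', rHF', smul_add, smul_sub, smul_smul]
  module

lemma dcA_sP : dc (mA K d) (sP K d) = (10 : K) • sP K d - (6 : K) • sM K d := by
  simp only [dc, mA, sP, sM, mul_add, add_mul, mul_sub, sub_mul, smul_mul_assoc, mul_smul_comm,
    mul_assoc, rEF, rHE, rHF, rEF', rHE', rHF', smul_add, smul_sub, smul_smul]
  module

lemma dcA_sM : dc (mA K d) (sM K d) = (10 : K) • sM K d - (6 : K) • sP K d := by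
  simp only [dc, mA, sP, sM, mul_add, add_mul, mul_sub, sub_mul, smul_mul_assoc, mul_smul_comm,
    mul_assoc, rEF, rHE, rHF, rEF', rHE', rHF', smul_add, smul_sub, smul_smul]
  module

lemma isBand_sP : IsBand 1 (sP K d) :=
  (isBand_mE.mul' isBand_mH (by norm_num)).add (isBand_mH.mul' isBand_mE (by norm_num))

lemma isBand_sM : IsBand (-1) (sM K d) :=
  (isBand_mF.mul' isBand_mH (by norm_num)).add (isBand_mH.mul' isBand_mF (by norm_num))

lemma dcH_apply (X : Matrix (Fin (d + 1)) (Fin (d + 1)) K) (i j : Fin (d + 1)) :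
    dc (mH K d) X i j = (2 * ((j : ℕ) - (i : ℕ) : K)) ^ 2 * X i j := by
  simp only [dc, mH]
  rw [Matrix.sub_apply, dg_mul_apply, mul_dg_apply, Matrix.sub_apply, dg_mul_apply, mul_dg_apply]
  ring

/-- first step: the shape of the matrix -/
lemma shape [CharZero K] (X : Matrix (Fin (d + 1)) (Fin (d + 1)) K)
    (hX : ∀ i j : Fin (d + 1), (i : ℕ) + 1 < j ∨ (j : ℕ) + 1 < i → X i j = 0)
    {γ ω η γ' ω' η' : K}
    (h1 : dc (mA K d) X = (4 : K) • X + γ • (mA K d * mA K d) + ω • mA K d + η • 1)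
    (h2 : dc (mH K d) X = (4 : K) • X + γ' • (mH K d * mH K d) + ω' • mH K d + η' • 1) :
    ∃ α β α' β' : K, X = α • mE K d + β • sP K d + α' • mF K d + β' • sM K d
      - (1 / 4 : K) • (γ' • (mH K d * mH K d) + ω' • mH K d + η' • 1) := by
  obtain ⟨x, y, z, rfl⟩ := tri_decomp X hX
  have hy : (dg y : Matrix (Fin (d + 1)) (Fin (d + 1)) K)
      = (-(1 / 4 : K)) • (γ' • (mH K d * mH K d) + ω' • mH K d + η' • 1) := by
    ext i j
    by_cases hij : i = j
    · subst hij
      have := congr_fun (congr_fun h2 i) i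
      rw [dcH_apply] at this
      simp only [Matrix.add_apply, Matrix.smul_apply, smul_eq_mul, up, dn, dg] at this ⊢
      simp only [sub_self, mul_zero, Nat.succ_ne_self, if_false, if_true, Matrix.one_apply_eq]
        at this ⊢
      have h4 : (4 : K) ≠ 0 := by norm_num
      field_simp
      linear_combination -this
    · have h' : ¬ ((i : ℕ) = j) := fun h' => hij (Fin.ext h')
      simp only [Matrix.add_apply, Matrix.smul_apply, smul_eq_mul, mH, dg_mul_apply, dg, if_neg h',
        Matrix.one_apply_ne hij]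
      simp
  set Xp : Matrix (Fin (d + 1)) (Fin (d + 1)) K := up x with hXp
  set Xm : Matrix (Fin (d + 1)) (Fin (d + 1)) K := dn z with hXm
  set X0 : Matrix (Fin (d + 1)) (Fin (d + 1)) K := dg y with hX0
  have bp : IsBand 1 Xp := isBand_up _
  have bm : IsBand (-1) Xm := isBand_dn _
  have b0 : IsBand 0 X0 := isBand_dg _
  have bE : IsBand 1 (mE K d) := isBand_mE
  have bF : IsBand (-1) (mF K d) := isBand_mF
  set E := mE K d with hE
  set F := mF K d with hF
  have e2 : IsBand 2 (E * E) := bE.mul' bE (by norm_num)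
  have f2 : IsBand (-2) (F * F) := bF.mul' bF (by norm_num)
  have ef : IsBand 0 (E * F) := bE.mul' bF (by norm_num)
  have fe : IsBand 0 (F * E) := bF.mul' bE (by norm_num)
  have hs := sep
    (A3 := E * (E * Xp) - (2 : K) • (E * (Xp * E)) + Xp * (E * E))
    (A2 := (E * E) * X0 - (2 : K) • (E * (X0 * E)) + X0 * (E * E) - γ • (E * E))
    (A1 := ((E * E) * Xm - (2 : K) • (E * (Xm * E)) + Xm * (E * E)) +
      ((E * F) * Xp + (F * E) * Xp - (2 : K) • (E * (Xp * F)) - (2 : K) • (F * (Xp * E))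
        + Xp * (E * F) + Xp * (F * E)) - (4 : K) • Xp - ω • E)
    (A0 := ((E * F) * X0 + (F * E) * X0 - (2 : K) • (E * (X0 * F)) - (2 : K) • (F * (X0 * E))
        + X0 * (E * F) + X0 * (F * E)) - (4 : K) • X0 - γ • (E * F + F * E) - η • 1)
    (B1 := ((F * F) * Xp - (2 : K) • (F * (Xp * F)) + Xp * (F * F)) +
      ((E * F) * Xm + (F * E) * Xm - (2 : K) • (E * (Xm * F)) - (2 : K) • (F * (Xm * E))
        + Xm * (E * F) + Xm * (F * E)) - (4 : K) • Xm - ω • F)
    (B2 := (F * F) * X0 - (2 : K) • (F * (X0 * F)) + X0 * (F * F) - γ • (F * F))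
    (B3 := F * (F * Xm) - (2 : K) • (F * (Xm * F)) + Xm * (F * F))
    (((bE.mul (bE.mul bp)).sub ((bE.mul (bp.mul bE)).smul _)).add (bp.mul' e2 (by norm_num)))
    ((((e2.mul' b0 (by norm_num)).sub (((bE.mul' (b0.mul bE) (by norm_num))).smul _)).add
      (b0.mul' e2 (by norm_num))).sub (e2.smul _))
    ((((((e2.mul' bm (by norm_num)).sub ((bE.mul' (bm.mul bE) (by norm_num)).smul _)).add
      (bm.mul' e2 (by norm_num))).add
      ((((((ef.mul' bp (by norm_num)).add (fe.mul' bp (by norm_num))).sub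
        ((bE.mul' (bp.mul bF) (by norm_num)).smul _)).sub
        ((bF.mul' (bp.mul bE) (by norm_num)).smul _)).add (bp.mul' ef (by norm_num))).add
        (bp.mul' fe (by norm_num)))).sub (bp.smul _)).sub (bE.smul _))
    (((((((((ef.mul' b0 (by norm_num)).add (fe.mul' b0 (by norm_num))).sub
        ((bE.mul' (b0.mul bF) (by norm_num)).smul _)).sub
        ((bF.mul' (b0.mul bE) (by norm_num)).smul _)).add (b0.mul' ef (by norm_num))).add
        (b0.mul' fe (by norm_num))).sub (b0.smul _)).sub ((ef.add fe).smul _)).sub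
        (isBand_one.smul _))
    ((((((f2.mul' bp (by norm_num)).sub ((bF.mul' (bp.mul bF) (by norm_num)).smul _)).add
      (bp.mul' f2 (by norm_num))).add
      ((((((ef.mul' bm (by norm_num)).add (fe.mul' bm (by norm_num))).sub
        ((bE.mul' (bm.mul bF) (by norm_num)).smul _)).sub
        ((bF.mul' (bm.mul bE) (by norm_num)).smul _)).add (bm.mul' ef (by norm_num))).add
        (bm.mul' fe (by norm_num)))).sub (bm.smul _)).sub (bF.smul _))
    ((((f2.mul' b0 (by norm_num)).sub (((bF.mul' (b0.mul bF) (by norm_num))).smul _)).add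
      (b0.mul' f2 (by norm_num))).sub (f2.smul _))
    (((bF.mul (bF.mul bm)).sub ((bF.mul (bm.mul bF)).smul _)).add (bm.mul' f2 (by norm_num)))
    (by
      have h1' := sub_eq_zero.mpr h1
      rw [← h1']
      simp only [dc, mA, ← hE, ← hF, mul_add, add_mul, mul_sub, sub_mul, smul_add, mul_assoc]
      module)
  obtain ⟨s3, -, -, -, -, -, t3⟩ := hs
  obtain ⟨p, q, hpq⟩ := lin_up (d := d) (fun i => (d : K) - i) x (by
    intro i hi
    rw [sub_ne_zero]
    exact_mod_cast hi.ne') s3
  obtain ⟨p', q', hpq'⟩ := lin_dn (d := d) (fun i => (i : K) + 1) z (by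
    intro i hi
    exact_mod_cast Nat.succ_ne_zero i) t3
  refine ⟨p + q * (2 * d - 2) / 4, -(q / 4), p' + q' * (2 * d - 2) / 4, -(q' / 4), ?_⟩
  rw [hXp, hXm, hy, up_congr hpq, dn_congr hpq', up_lin, dn_lin, sP, sM]
  module

lemma isBand_zero (k : ℤ) : IsBand k (0 : Matrix (Fin n) (Fin n) K) := by
  intro i j _; rfl

lemma mE_apply (i j : ℕ) (hi : i < d + 1) (hj : j < d + 1) :
    mE K d ⟨i, hi⟩ ⟨j, hj⟩ = if i + 1 = j then (d : K) - i else 0 := rfl

lemma mF_apply (i j : ℕ) (hi : i < d + 1) (hj : j < d + 1) :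
    mF K d ⟨i, hi⟩ ⟨j, hj⟩ = if j + 1 = i then (j : K) + 1 else 0 := rfl

lemma mH_apply (i j : ℕ) (hi : i < d + 1) (hj : j < d + 1) :
    mH K d ⟨i, hi⟩ ⟨j, hj⟩ = if i = j then (d : K) - 2 * i else 0 := rfl

lemma sP_apply (i j : ℕ) (hi : i < d + 1) (hj : j < d + 1) :
    sP K d ⟨i, hi⟩ ⟨j, hj⟩ = if i + 1 = j then ((d : K) - i) * (2 * d - 2 - 4 * i) else 0 := by
  rw [sP, EHHE]; rfl

lemma sM_apply (i j : ℕ) (hi : i < d + 1) (hj : j < d + 1) :
    sM K d ⟨i, hi⟩ ⟨j, hj⟩ = if j + 1 = i then ((j : K) + 1) * (2 * d - 2 - 4 * j) else 0 := by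
  rw [sM, FHHF]; rfl

/-- the five dimensional space -/
lemma five [CharZero K] (hd : 2 ≤ d) (X : Matrix (Fin (d + 1)) (Fin (d + 1)) K)
    (hX : ∀ i j : Fin (d + 1), (i : ℕ) + 1 < j ∨ (j : ℕ) + 1 < i → X i j = 0)
    {γ ω η γ' ω' η' : K}
    (h1 : dc (mA K d) X = (4 : K) • X + γ • (mA K d * mA K d) + ω • mA K d + η • 1)
    (h2 : dc (mH K d) X = (4 : K) • X + γ' • (mH K d * mH K d) + ω' • mH K d + η' • 1) :
    ∃ a b c g t : K, X = a • 1 + b • mA K d + c • mH K d +
      g • (mA K d * mH K d - mH K d * mA K d) + t • (mA K d * mH K d + mH K d * mA K d) := by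
  obtain ⟨α, β, α', β', hX'⟩ := shape X hX h1 h2
  have h1' := h1
  rw [hX'] at h1'
  simp only [dc_add, dc_sub, dc_smul, dcA_E, dcA_F, dcA_sP, dcA_sM, dcA_H2, dcA_H, dc_one]
    at h1'
  have bE : IsBand 1 (mE K d) := isBand_mE
  have bF : IsBand (-1) (mF K d) := isBand_mF
  have bH : IsBand 0 (mH K d) := isBand_mH
  have hs := sep (A3 := 0) (A2 := (-(2 * γ' + γ)) • (mE K d * mE K d))
    (A1 := (-2 * α - 2 * α' - ω) • mE K d + (6 * (β - β')) • sP K d)
    (A0 := (-2 * γ') • (mH K d * mH K d - mE K d * mF K d - mF K d * mE K d)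
      + γ' • (mH K d * mH K d) + (η' - η) • 1 - γ • (mE K d * mF K d + mF K d * mE K d))
    (B1 := (-2 * α - 2 * α' - ω) • mF K d + (6 * (β' - β)) • sM K d)
    (B2 := (-(2 * γ' + γ)) • (mF K d * mF K d)) (B3 := 0)
    (isBand_zero _) ((bE.mul' bE (by norm_num)).smul _)
    ((bE.smul _).add (isBand_sP.smul _))
    (((((((bH.mul' bH (by norm_num)).sub (bE.mul' bF (by norm_num))).sub
      (bF.mul' bE (by norm_num))).smul _).add ((bH.mul' bH (by norm_num)).smul _)).add
      (isBand_one.smul _)).sub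
      (((bE.mul' bF (by norm_num)).add (bF.mul' bE (by norm_num))).smul _))
    ((bF.smul _).add (isBand_sM.smul _))
    ((bF.mul' bF (by norm_num)).smul _) (isBand_zero _)
    (by
      have h1'' := sub_eq_zero.mpr h1'
      refine Eq.trans ?_ h1''
      simp only [mA, mul_add, add_mul]
      module)
  obtain ⟨-, s2, s1, s0, -, -, -⟩ := hs
  have hd0 : (d : K) ≠ 0 := by exact_mod_cast (by omega : d ≠ 0)
  have hd1 : (d : K) - 1 ≠ 0 := by
    rw [sub_ne_zero]; exact_mod_cast (by omega : d ≠ 1)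
  -- band 2
  have e2 : 2 * γ' + γ = 0 := by
    have := congr_fun (congr_fun s2 ⟨0, by omega⟩) ⟨2, by omega⟩
    rw [Matrix.smul_apply, mE, up2_apply _ _ 0 (by omega)] at this
    simp only [smul_eq_mul, Matrix.zero_apply, mul_eq_zero] at this
    rcases this with h | h | h
    · linear_combination -h
    · exact absurd (by simpa using h) hd0
    · exact absurd (by simpa using h) hd1
  -- band 0
  have e0 : γ' = 0 := by
    have hc := rCas (K := K) (d := d)
    have hh : (-3 * γ') • (mH K d * mH K d) + (2 * γ' * d * (d + 2) + (η' - η)) • 1 = 0 := by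
      rw [← s0]
      have hγ : γ = -2 * γ' := by linear_combination e2
      rw [hγ, rEF]
      have : mF K d * mE K d = (1 / 4 : K) • (((d : K) * (d + 2)) • 1 - mH K d * mH K d
          - (2 : K) • mH K d) := by
        rw [← hc, smul_smul]; norm_num
      rw [this]
      module
    have h0 := congr_fun (congr_fun hh ⟨0, by omega⟩) ⟨0, by omega⟩
    have h1 := congr_fun (congr_fun hh ⟨1, by omega⟩) ⟨1, by omega⟩
    rw [Matrix.add_apply, Matrix.smul_apply, Matrix.smul_apply] at h0 h1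
    nth_rewrite 1 [mH] at h0 h1
    rw [dg_mul_apply, mH_apply] at h0 h1
    simp only [smul_eq_mul, Matrix.zero_apply, Matrix.one_apply_eq, if_true] at h0 h1
    push_cast at h0 h1
    have : 12 * (d - 1 : K) * γ' = 0 := by linear_combination h1 - h0
    rcases mul_eq_zero.mp this with h | h
    · rcases mul_eq_zero.mp h with h | h
      · norm_num at h
      · exact absurd h hd1
    · exact h
  -- band 1
  have e1 : -2 * α - 2 * α' - ω = 0 ∧ β - β' = 0 := by
    have h0 := congr_fun (congr_fun s1 ⟨0, by omega⟩) ⟨1, by omega⟩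
    have h1 := congr_fun (congr_fun s1 ⟨1, by omega⟩) ⟨2, by omega⟩
    rw [Matrix.add_apply, Matrix.smul_apply, Matrix.smul_apply, mE_apply, sP_apply] at h0 h1
    simp only [smul_eq_mul, Matrix.zero_apply, zero_add, if_true, Nat.reduceAdd] at h0 h1
    push_cast at h0 h1
    have h0' : (-2 * α - 2 * α' - ω) + 6 * (β - β') * (2 * d - 2) = 0 := by
      have : (d : K) * ((-2 * α - 2 * α' - ω) + 6 * (β - β') * (2 * d - 2)) = 0 := by
        linear_combination h0
      exact (mul_eq_zero.mp this).resolve_left hd0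
    have h1' : (-2 * α - 2 * α' - ω) + 6 * (β - β') * (2 * d - 6) = 0 := by
      have : (d - 1 : K) * ((-2 * α - 2 * α' - ω) + 6 * (β - β') * (2 * d - 6)) = 0 := by
        linear_combination h1
      exact (mul_eq_zero.mp this).resolve_left hd1
    have h3 : β - β' = 0 := by linear_combination (h0' - h1') / 24
    refine ⟨?_, h3⟩
    rw [h3] at h0'
    linear_combination h0'
  obtain ⟨e1, e3⟩ := e1
  have hβ : β' = β := by linear_combination -e3
  refine ⟨-(η' / 4), (α + α') / 2, -(ω' / 4), (α' - α) / 4, β, ?_⟩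
  rw [hX', e0, hβ]
  simp only [sP, sM, mA, mul_add, add_mul, rHE, rHF]
  module

end Pool.Agent.NH17.Leo
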