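import Pool.Agent.NH17.Leo.Tri

/-!
Leonard triples containing the Krawtchouk pair `e + f`, `h`: necessity of the conditions.
-/

namespace Pool.Agent.NH17.Leo

open Matrix

variable {K : Type*} [Field K] {n d : ℕ}

/-- the elements coming from the Lie algebra -/
def comb (d : ℕ) (a b c g : K) : Matrix (Fin (d + 1)) (Fin (d + 1)) K :=
  a • 1 + b • mA K d + c • mH K d + g • (mA K d * mH K d - mH K d * mA K d)

lemma comb_eq (a b c g : K) : comb d a b c g = a • 1 + (b - 2 * g) • mE K d + c • mH K d +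
    (b + 2 * g) • mF K d := by
  simp only [comb, mA, add_mul, mul_add, rHE, rHF]
  module

lemma dcH_E : dc (mH K d) (mE K d) = (4 : K) • mE K d := by
  simp only [dc, mul_add, add_mul, mul_sub, sub_mul, smul_mul_assoc, mul_smul_comm, mul_assoc,
    rEF, rHE, rHF, rEF', rHE', rHF', smul_add, smul_sub, smul_smul]
  module

lemma dcH_F : dc (mH K d) (mF K d) = (4 : K) • mF K d := by
  simp only [dc, mul_add, add_mul, mul_sub, sub_mul, smul_mul_assoc, mul_smul_comm, mul_assoc,
    rEF, rHE, rHF, rEF', rHE', rHF', smul_add, smul_sub, smul_smul]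
  module

lemma dcH_comb (a b c g : K) : dc (mH K d) (comb d a b c g) =
    (4 * (b - 2 * g)) • mE K d + (4 * (b + 2 * g)) • mF K d := by
  rw [comb_eq]
  simp only [dc_add, dc_smul, dc_one, dcH_E, dcH_F, dc_self]
  module

lemma cH_comb (a b c g : K) : mH K d * comb d a b c g - comb d a b c g * mH K d =
    (2 * (b - 2 * g)) • mE K d - (2 * (b + 2 * g)) • mF K d := by
  rw [comb_eq]
  simp only [mul_add, add_mul, mul_smul_comm, smul_mul_assoc, rHE, rHF, mul_one, one_mul]
  module

lemma dcA_comb (a b c g : K) : dc (mA K d) (comb d a b c g) =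
    (4 * c) • mH K d + (4 * g) • (mA K d * mH K d - mH K d * mA K d) := by
  rw [comb_eq]
  simp only [dc_add, dc_smul, dc_one, dcA_E, dcA_F, dcA_H]
  simp only [mA, mul_add, add_mul, rHE, rHF]
  module

lemma cA_comb (a b c g : K) : mA K d * comb d a b c g - comb d a b c g * mA K d =
    c • (mA K d * mH K d - mH K d * mA K d) + (4 * g) • mH K d := by
  rw [comb_eq]
  simp only [mA, mul_add, add_mul, mul_smul_comm, smul_mul_assoc, rHE, rHF, rEF, mul_one, one_mul]
  module

lemma dc_comb_A (a b c g : K) : dc (comb d a b c g) (mA K d) =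
    (4 * (b ^ 2 + c ^ 2 - 4 * g ^ 2)) • mA K d - (4 * b) • (comb d a b c g - a • 1) := by
  simp only [comb_eq, dc, mA, mul_add, add_mul, mul_sub, sub_mul, smul_mul_assoc, mul_smul_comm,
    mul_assoc, rEF, rHE, rHF, rEF', rHE', rHF', smul_add, smul_sub, smul_smul, mul_one, one_mul]
  module

lemma map_dc (φ : Matrix (Fin (d + 1)) (Fin (d + 1)) K ≃ₐ[K] Matrix (Fin (d + 1)) (Fin (d + 1)) K)
    (T X : Matrix (Fin (d + 1)) (Fin (d + 1)) K) : φ (dc T X) = dc (φ T) (φ X) := by
  simp only [dc, map_sub, map_mul]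

/-- no degenerate relation -/
lemma nondeg (hn : 2 ≤ n) {D T X : Matrix (Fin n) (Fin n) K} (hD : D.IsDiag)
    (hT : IrredTridiag T) (hX : IrredTridiag X) (h : dc D T = (4 : K) • T) (h4 : (4 : K) ≠ 0)
    (s : K) (h' : dc D X = s • (D * X - X * D)) : False := by
  have a1 := congr_fun (congr_fun h' ⟨0, by omega⟩) ⟨1, by omega⟩
  have a2 := congr_fun (congr_fun h' ⟨1, by omega⟩) ⟨0, by omega⟩
  rw [dc_diag_apply hD, Matrix.smul_apply, comm_diag_apply hD, smul_eq_mul, ← mul_assoc] at a1 a2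
  have b1 := mul_right_cancel₀ (hX.2 _ _ (Or.inl (by simp))) a1
  have b2 := mul_right_cancel₀ (hX.2 _ _ (Or.inr (by simp))) a2
  have c1 := adj_sq hD hT h ⟨0, by omega⟩ ⟨1, by omega⟩ (Or.inl (by simp))
  have c2 := adj_sq hD hT h ⟨1, by omega⟩ ⟨0, by omega⟩ (Or.inr (by simp))
  have : (8 : K) = 0 := by linear_combination b1 + b2 - c1 - c2
  have : (4 : K) ^ 2 = 0 := by linear_combination 2 * this
  exact h4 (by simpa using this)

/-- the conditions for the elements coming from the Lie algebra -/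
lemma conds [CharZero K] (hd : 1 ≤ d) (a b c g : K)
    (φ₁ φ₂ φ₃ : Matrix (Fin (d + 1)) (Fin (d + 1)) K ≃ₐ[K] Matrix (Fin (d + 1)) (Fin (d + 1)) K)
    (h1 : (φ₁ (mA K d)).IsDiag ∧ IrredTridiag (φ₁ (mH K d)) ∧ IrredTridiag (φ₁ (comb d a b c g)))
    (h2 : (φ₂ (mH K d)).IsDiag ∧ IrredTridiag (φ₂ (mA K d)) ∧ IrredTridiag (φ₂ (comb d a b c g)))
    (h3 : (φ₃ (comb d a b c g)).IsDiag ∧ IrredTridiag (φ₃ (mA K d)) ∧ IrredTridiag (φ₃ (mH K d))) :
    b ^ 2 ≠ 4 * g ^ 2 ∧ c ^ 2 ≠ 4 * g ^ 2 ∧ b ^ 2 + c ^ 2 ≠ 4 * g ^ 2 := by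
  have h4 : (4 : K) ≠ 0 := by norm_num
  have dHA : dc (φ₂ (mH K d)) (φ₂ (mA K d)) = (4 : K) • φ₂ (mA K d) := by
    rw [← map_dc, dcH_A, map_smul]
  have dAH : dc (φ₁ (mA K d)) (φ₁ (mH K d)) = (4 : K) • φ₁ (mH K d) := by
    rw [← map_dc, dcA_H, map_smul]
  refine ⟨?_, ?_, ?_⟩
  · intro h
    have : (b - 2 * g) * (b + 2 * g) = 0 := by linear_combination h
    rcases mul_eq_zero.mp this with h | h
    · apply nondeg (by omega) h2.1 h2.2.1 h2.2.2 dHA h4 (-2)
      rw [← map_dc, ← map_mul, ← map_mul, ← map_sub, ← map_smul, dcH_comb, cH_comb, h]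
      congr 1; module
    · apply nondeg (by omega) h2.1 h2.2.1 h2.2.2 dHA h4 2
      rw [← map_dc, ← map_mul, ← map_mul, ← map_sub, ← map_smul, dcH_comb, cH_comb, h]
      congr 1; module
  · intro h
    have : (c - 2 * g) * (c + 2 * g) = 0 := by linear_combination h
    rcases mul_eq_zero.mp this with h | h
    · apply nondeg (by omega) h1.1 h1.2.1 h1.2.2 dAH h4 2
      rw [← map_dc, ← map_mul, ← map_mul, ← map_sub, ← map_smul, dcA_comb, cA_comb]
      have : c = 2 * g := by linear_combination h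
      rw [this]
      congr 1; module
    · apply nondeg (by omega) h1.1 h1.2.1 h1.2.2 dAH h4 (-2)
      rw [← map_dc, ← map_mul, ← map_mul, ← map_sub, ← map_smul, dcA_comb, cA_comb]
      have : c = -2 * g := by linear_combination h
      rw [this]
      congr 1; module
  · intro h
    have e : dc (φ₃ (comb d a b c g)) (φ₃ (mA K d)) = (-4 * b) • (φ₃ (comb d a b c g) - a • 1) := by
      rw [← map_dc, dc_comb_A, map_sub, map_smul, map_smul, map_sub, map_smul, map_one,
        show 4 * (b ^ 2 + c ^ 2 - 4 * g ^ 2) = 0 by linear_combination 4 * h]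
      module
    have e' : ∀ i j : Fin (d + 1), ((i : ℕ) + 1 = j ∨ (j : ℕ) + 1 = i) →
        φ₃ (comb d a b c g) i i = φ₃ (comb d a b c g) j j := by
      intro i j hij
      have := congr_fun (congr_fun e i) j
      have hne : i ≠ j := by rintro rfl; omega
      rw [dc_diag_apply h3.1, Matrix.smul_apply, Matrix.sub_apply, Matrix.smul_apply, h3.1 hne,
        Matrix.one_apply_ne hne] at this
      simp only [smul_zero, sub_zero] at this
      rcases mul_eq_zero.mp this with h | h
      · exact sub_eq_zero.mp (by simpa using h)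
      · exact absurd h (h3.2.1.2 i j hij)
    have e'' : ∀ i : ℕ, ∀ hi : i < d + 1, φ₃ (comb d a b c g) ⟨i, hi⟩ ⟨i, hi⟩ =
        φ₃ (comb d a b c g) ⟨0, by omega⟩ ⟨0, by omega⟩ := by
      intro i
      induction i with
      | zero => intro _; rfl
      | succ i ih =>
        intro hi
        rw [← ih (by omega)]
        exact e' _ _ (Or.inr (by simp))
    set ξ := φ₃ (comb d a b c g) ⟨0, by omega⟩ ⟨0, by omega⟩ with hξ
    have hs : φ₃ (comb d a b c g) = ξ • 1 := by
      ext i j
      by_cases hij : i = j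
      · subst hij
        rw [show φ₃ (comb d a b c g) i i = ξ from e'' i i.2]
        simp
      · rw [h3.1 hij, Matrix.smul_apply, Matrix.one_apply_ne hij, smul_zero]
    have hs' : comb d a b c g = ξ • 1 := by
      apply φ₃.injective
      rw [hs, map_smul, map_one]
    have := h2.2.2.2 ⟨0, by omega⟩ ⟨1, by omega⟩ (Or.inl (by simp))
    apply this
    rw [hs', map_smul, map_one, Matrix.smul_apply, Matrix.one_apply_ne (by simp), smul_zero]

/-- upper bandwidth -/
def UB (k : ℤ) (M : Matrix (Fin n) (Fin n) K) : Prop :=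
  ∀ i j : Fin n, (i : ℤ) + k < j → M i j = 0

lemma UB.mul {k l : ℤ} {M N : Matrix (Fin n) (Fin n) K} (hM : UB k M) (hN : UB l N) :
    UB (k + l) (M * N) := by
  intro i j h
  rw [Matrix.mul_apply]
  apply Finset.sum_eq_zero
  intro m _
  by_cases h1 : (i : ℤ) + k < m
  · rw [hM i m h1, zero_mul]
  · rw [hN m j (by omega), mul_zero]

lemma UB.add {k : ℤ} {M N : Matrix (Fin n) (Fin n) K} (hM : UB k M) (hN : UB k N) :
    UB k (M + N) := by
  intro i j h; rw [Matrix.add_apply, hM i j h, hN i j h, add_zero]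

lemma UB.sub {k : ℤ} {M N : Matrix (Fin n) (Fin n) K} (hM : UB k M) (hN : UB k N) :
    UB k (M - N) := by
  intro i j h; rw [Matrix.sub_apply, hM i j h, hN i j h, sub_zero]

lemma UB.smul {k : ℤ} {M : Matrix (Fin n) (Fin n) K} (hM : UB k M) (c : K) :
    UB k (c • M) := by
  intro i j h; rw [Matrix.smul_apply, hM i j h, smul_zero]

lemma UB.mono {k l : ℤ} {M : Matrix (Fin n) (Fin n) K} (hM : UB k M) (h : k ≤ l) : UB l M := by
  intro i j hij; exact hM i j (by omega)

lemma IsBand.ub {k : ℤ} {M : Matrix (Fin n) (Fin n) K} (hM : IsBand k M) : UB k M := by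
  intro i j hij; exact hM i j (by omega)

/-- For `d ≥ 3` there is no component in the five dimensional summand. -/
lemma no_five [CharZero K] (hd : 3 ≤ d) (a b c g t δ ω κ : K)
    (h : dc (comb d a b c g + t • (mA K d * mH K d + mH K d * mA K d)) (mA K d) =
      δ • mA K d + ω • (comb d a b c g + t • (mA K d * mH K d + mH K d * mA K d)) + κ • 1) :
    t = 0 := by
  set X := comb d a b c g + t • (mA K d * mH K d + mH K d * mA K d) with hX
  set Xp := (b - 2 * g) • mE K d + t • sP K d with hXp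
  set Y := a • 1 + c • mH K d + (b + 2 * g) • mF K d + t • sM K d with hY
  have hXY : X = Xp + Y := by
    rw [hX, comb_eq, hXp, hY, sP, sM, mA, add_mul, mul_add]; module
  have bp : UB 1 Xp := (isBand_mE.ub.smul _).add (isBand_sP.ub.smul _)
  have bY : UB 0 Y := ((((isBand_one.ub).smul _).add (isBand_mH.ub.smul _)).add
    ((isBand_mF.ub.mono (by norm_num)).smul _)).add ((isBand_sM.ub.mono (by norm_num)).smul _)
  have bX : UB 1 X := by rw [hXY]; exact bp.add (bY.mono (by norm_num))
  have bE : UB 1 (mE K d) := isBand_mE.ub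
  have bF : UB 0 (mF K d) := isBand_mF.ub.mono (by norm_num)
  have bA : UB 1 (mA K d) := bE.add (bF.mono (by norm_num))
  have key : dc X (mA K d) = (Xp * (Xp * mE K d) - (2 : K) • (Xp * (mE K d * Xp)) +
      mE K d * (Xp * Xp)) + ((X * (X * mF K d) + X * (Y * mE K d) + Y * (Xp * mE K d))
      - (2 : K) • (X * (mA K d * Y) + X * (mF K d * Xp) + Y * (mE K d * Xp))
      + (mA K d * (X * Y) + mA K d * (Y * Xp) + mF K d * (Xp * Xp))) := by
    rw [hXY]
    simp only [dc, mA, mul_add, add_mul, mul_sub, sub_mul, smul_add, mul_assoc]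
    module
  have ub : UB 2 ((X * (X * mF K d) + X * (Y * mE K d) + Y * (Xp * mE K d))
      - (2 : K) • (X * (mA K d * Y) + X * (mF K d * Xp) + Y * (mE K d * Xp))
      + (mA K d * (X * Y) + mA K d * (Y * Xp) + mF K d * (Xp * Xp))) := by
    refine UB.add (UB.sub (UB.add (UB.add ?_ ?_) ?_) (UB.smul (UB.add (UB.add ?_ ?_) ?_) _))
      (UB.add (UB.add ?_ ?_) ?_)
    · exact (bX.mul (bX.mul bF)).mono (by norm_num)
    · exact (bX.mul (bY.mul bE)).mono (by norm_num)
    · exact (bY.mul (bp.mul bE)).mono (by norm_num)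
    · exact (bX.mul (bA.mul bY)).mono (by norm_num)
    · exact (bX.mul (bF.mul bp)).mono (by norm_num)
    · exact (bY.mul (bE.mul bp)).mono (by norm_num)
    · exact (bA.mul (bX.mul bY)).mono (by norm_num)
    · exact (bA.mul (bY.mul bp)).mono (by norm_num)
    · exact (bF.mul (bp.mul bp)).mono (by norm_num)
  have h03 := congr_fun (congr_fun h ⟨0, by omega⟩) ⟨3, by omega⟩
  have hr : (δ • mA K d + ω • X + κ • (1 : Matrix (Fin (d + 1)) (Fin (d + 1)) K))
      ⟨0, by omega⟩ ⟨3, by omega⟩ = 0 := by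
    rw [Matrix.add_apply, Matrix.add_apply, Matrix.smul_apply, Matrix.smul_apply,
      Matrix.smul_apply, bA _ _ (by simp), bX _ _ (by simp), Matrix.one_apply_ne (by simp)]
    simp
  rw [hr, key, Matrix.add_apply, ub _ _ (by simp), add_zero] at h03
  have hup : Xp = up (fun i => ((d : K) - i) * ((b - 2 * g) + t * (2 * d - 2 - 4 * i))) := by
    rw [hXp, sP, EHHE, mE]
    ext i j
    simp only [Matrix.add_apply, Matrix.smul_apply, up, smul_eq_mul]
    split_ifs
    · ring
    · simp
  rw [hup, mE, Matrix.add_apply, Matrix.sub_apply, Matrix.smul_apply, up3_apply _ _ _ 0 (by omega),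
    up3_apply _ _ _ 0 (by omega), up3_apply _ _ _ 0 (by omega)] at h03
  simp only [smul_eq_mul, zero_add] at h03
  push_cast at h03
  have hd0 : (d : K) ≠ 0 := by exact_mod_cast (by omega : d ≠ 0)
  have hd1 : (d : K) - 1 ≠ 0 := by
    rw [sub_ne_zero]; exact_mod_cast (by omega : d ≠ 1)
  have hd2 : (d : K) - 2 ≠ 0 := by
    rw [sub_ne_zero]; exact_mod_cast (by omega : d ≠ 2)
  have : (32 * (d : K) * (d - 1) * (d - 2)) * t ^ 2 = 0 := by linear_combination h03
  rcases mul_eq_zero.mp this with h | h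
  · exfalso
    have : (32 * (d : K) * (d - 1) * (d - 2)) ≠ 0 :=
      mul_ne_zero (mul_ne_zero (mul_ne_zero (by norm_num) hd0) hd1) hd2
    exact this h
  · simpa using h

end Pool.Agent.NH17.Leo
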