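import Pool.Agent.NH17.Leo.Forward

/-!
Leonard triples containing the Krawtchouk pair `e + f`, `h`: necessity of the conditions, `d ≤ 2`.
-/

namespace Pool.Agent.NH17.Leo

open Matrix

variable {K : Type*} [Field K] {n d : ℕ}

lemma mA2 : mA K 2 = !![0, 2, 0; 1, 0, 1; 0, 2, 0] := by
  ext i j
  fin_cases i <;> fin_cases j <;> simp [mA, mE, mF, up, dn] <;> norm_num

lemma mH2 : mH K 2 = !![2, 0, 0; 0, 0, 0; 0, 0, -2] := by
  ext i j
  fin_cases i <;> fin_cases j <;> simp [mH, dg] <;> norm_num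

lemma X2 (a b c g t : K) : comb 2 a b c g + t • (mA K 2 * mH K 2 + mH K 2 * mA K 2) =
    !![a + 2 * c, 2 * (b - 2 * g) + 4 * t, 0; b + 2 * g + 2 * t, a, b - 2 * g - 2 * t;
      0, 2 * (b + 2 * g) - 4 * t, a - 2 * c] := by
  rw [comb, mA2, mH2]
  ext i j
  fin_cases i <;> fin_cases j <;> simp [Matrix.mul_apply, Fin.sum_univ_three] <;> ring

lemma case_two [CharZero K] (a b c g t δ κ δ' κ' : K) (ht : t ≠ 0)
    (hA : dc (comb 2 a b c g + t • (mA K 2 * mH K 2 + mH K 2 * mA K 2)) (mA K 2) =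
      δ • mA K 2 + (-4 * b) • (comb 2 a b c g + t • (mA K 2 * mH K 2 + mH K 2 * mA K 2)) + κ • 1)
    (hH : dc (comb 2 a b c g + t • (mA K 2 * mH K 2 + mH K 2 * mA K 2)) (mH K 2) =
      δ' • mH K 2 + (-4 * c) • (comb 2 a b c g + t • (mA K 2 * mH K 2 + mH K 2 * mA K 2))
      + κ' • 1) : b = 0 ∧ c = 0 := by
  rw [X2, mA2] at hA
  rw [X2, mH2] at hH
  constructor
  · have h0 := congr_fun (congr_fun hH 0) 0
    have h1 := congr_fun (congr_fun hH 1) 1
    have h2 := congr_fun (congr_fun hH 2) 2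
    simp [dc, Matrix.mul_apply, Fin.sum_univ_three, Matrix.vecMul, dotProduct] at h0 h1 h2
    have : b * t = 0 := by linear_combination (h0 + h2 - 2 * h1) / 192
    rcases mul_eq_zero.mp this with h | h
    · exact h
    · exact absurd h ht
  · have h0 := congr_fun (congr_fun hA 0) 2
    simp [dc, Matrix.mul_apply, Fin.sum_univ_three, Matrix.vecMul, dotProduct] at h0
    have : c * t = 0 := by linear_combination h0 / 48
    rcases mul_eq_zero.mp this with h | h
    · exact h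
    · exact absurd h ht

lemma H2_cube : mH K 2 * (mH K 2 * mH K 2) = (4 : K) • mH K 2 := by
  rw [mH2]
  ext i j
  fin_cases i <;> fin_cases j <;> simp [Matrix.mul_apply, Fin.sum_univ_three] <;> norm_num

lemma diag_mul_apply {D : Matrix (Fin n) (Fin n) K} (hD : D.IsDiag) (M : Matrix (Fin n) (Fin n) K)
    (i j : Fin n) : (D * M) i j = D i i * M i j := by
  rw [Matrix.mul_apply, Finset.sum_eq_single i]
  · intro b _ hb; rw [hD hb.symm, zero_mul]
  · simp

lemma mul_diag_apply {D : Matrix (Fin n) (Fin n) K} (hD : D.IsDiag) (M : Matrix (Fin n) (Fin n) K)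
    (i j : Fin n) : (M * D) i j = M i j * D j j := by
  rw [Matrix.mul_apply, Finset.sum_eq_single j]
  · intro b _ hb; rw [hD hb, mul_zero]
  · simp

lemma nondeg2 [CharZero K] (a g t : K)
    (φ₂ : Matrix (Fin (2 + 1)) (Fin (2 + 1)) K ≃ₐ[K] Matrix (Fin (2 + 1)) (Fin (2 + 1)) K)
    (h2 : (φ₂ (mH K 2)).IsDiag ∧ IrredTridiag (φ₂ (mA K 2)) ∧
      IrredTridiag (φ₂ (a • 1 + g • (mA K 2 * mH K 2 - mH K 2 * mA K 2) +
        t • (mA K 2 * mH K 2 + mH K 2 * mA K 2)))) : t ^ 2 ≠ g ^ 2 := by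
  intro h
  have h4 : (4 : K) ≠ 0 := by norm_num
  have dHA : dc (φ₂ (mH K 2)) (φ₂ (mA K 2)) = (4 : K) • φ₂ (mA K 2) := by
    rw [← map_dc, dcH_A, map_smul]
  set D := φ₂ (mH K 2) with hD
  set T := φ₂ (mA K 2) with hT
  have cube : D * (D * D) = (4 : K) • D := by
    rw [hD, ← map_mul, ← map_mul, H2_cube, map_smul]
  have hcube : ∀ i, D i i * (D i i * D i i) = 4 * D i i := by
    intro i
    have := congr_fun (congr_fun cube i) i
    rwa [diag_mul_apply h2.1, diag_mul_apply h2.1, Matrix.smul_apply, smul_eq_mul] at this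
  have c1 := adj_sq h2.1 h2.2.1 dHA ⟨0, by omega⟩ ⟨1, by omega⟩ (Or.inl (by simp))
  -- one of the two first diagonal entries is zero
  obtain ⟨i, j, hij, hi⟩ : ∃ i j : Fin (2 + 1), ((i : ℕ) + 1 = j ∨ (j : ℕ) + 1 = i) ∧ D i i = 0 := by
    by_cases h0 : D ⟨0, by omega⟩ ⟨0, by omega⟩ = 0
    · exact ⟨⟨0, by omega⟩, ⟨1, by omega⟩, Or.inl (by simp), h0⟩
    · refine ⟨⟨1, by omega⟩, ⟨0, by omega⟩, Or.inr (by simp), ?_⟩
      by_contra h1
      have a0 := hcube ⟨0, by omega⟩
      have a1 := hcube ⟨1, by omega⟩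
      set x := D ⟨0, by omega⟩ ⟨0, by omega⟩
      set y := D ⟨1, by omega⟩ ⟨1, by omega⟩
      have b0 : x * x = 4 := mul_left_cancel₀ h0 (by linear_combination a0)
      have b1 : y * y = 4 := mul_left_cancel₀ h1 (by linear_combination a1)
      have b2 : x * y = 2 := by linear_combination (b0 + b1 - c1) / 2
      have : (12 : K) = 0 := by
        linear_combination (-x * x) * b1 - 4 * b0 + (x * y + 2) * b2
      norm_num at this
  have hne : i ≠ j := by rintro rfl; omega
  have hX : φ₂ (a • 1 + g • (mA K 2 * mH K 2 - mH K 2 * mA K 2) +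
        t • (mA K 2 * mH K 2 + mH K 2 * mA K 2)) =
        a • 1 + g • (T * D - D * T) + t • (T * D + D * T) := by
    simp only [map_add, map_sub, map_smul, map_mul, map_one, hD, hT]
  rw [hX] at h2
  have : (t - g) * (t + g) = 0 := by linear_combination h
  rcases mul_eq_zero.mp this with h | h
  · apply h2.2.2.2 j i hij.symm
    rw [Matrix.add_apply, Matrix.add_apply, Matrix.smul_apply, Matrix.smul_apply,
      Matrix.smul_apply, Matrix.sub_apply, Matrix.add_apply, mul_diag_apply h2.1,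
      diag_mul_apply h2.1, hi, Matrix.one_apply_ne hne.symm]
    simp only [smul_eq_mul]
    linear_combination (D j j * T j i) * h
  · apply h2.2.2.2 i j hij
    rw [Matrix.add_apply, Matrix.add_apply, Matrix.smul_apply, Matrix.smul_apply,
      Matrix.smul_apply, Matrix.sub_apply, Matrix.add_apply, mul_diag_apply h2.1,
      diag_mul_apply h2.1, hi, Matrix.one_apply_ne hne]
    simp only [smul_eq_mul]
    linear_combination (D j j * T i j) * h

lemma case_one [CharZero K] (X : Matrix (Fin (1 + 1)) (Fin (1 + 1)) K) :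
    ∃ a b c g : K, X = comb 1 a b c g := by
  refine ⟨(X 0 0 + X 1 1) / 2, (X 0 1 + X 1 0) / 2, (X 0 0 - X 1 1) / 2, (X 1 0 - X 0 1) / 4, ?_⟩
  rw [comb_eq]
  ext i j
  fin_cases i <;> fin_cases j <;>
    simp [mE, mF, mH, up, dn, dg] <;> ring

/-- the answer -/
def Good (d : ℕ) (X : Matrix (Fin (d + 1)) (Fin (d + 1)) K) : Prop :=
  (∃ a b c g : K, b ^ 2 ≠ 4 * g ^ 2 ∧ c ^ 2 ≠ 4 * g ^ 2 ∧ b ^ 2 + c ^ 2 ≠ 4 * g ^ 2 ∧
    X = comb d a b c g) ∨
  (d = 2 ∧ ∃ a g t : K, t ^ 2 ≠ g ^ 2 ∧ X = a • 1 + g • (mA K d * mH K d - mH K d * mA K d) +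
    t • (mA K d * mH K d + mH K d * mA K d))

theorem forward [CharZero K] (hd : 1 ≤ d) (X : Matrix (Fin (d + 1)) (Fin (d + 1)) K)
    (φ₁ φ₂ φ₃ : Matrix (Fin (d + 1)) (Fin (d + 1)) K ≃ₐ[K] Matrix (Fin (d + 1)) (Fin (d + 1)) K)
    (h1 : (φ₁ (mA K d)).IsDiag ∧ IrredTridiag (φ₁ (mH K d)) ∧ IrredTridiag (φ₁ X))
    (h2 : (φ₂ (mH K d)).IsDiag ∧ IrredTridiag (φ₂ (mA K d)) ∧ IrredTridiag (φ₂ X))
    (h3 : (φ₃ X).IsDiag ∧ IrredTridiag (φ₃ (mA K d)) ∧ IrredTridiag (φ₃ (mH K d))) :
    Good d X := by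
  have dHA : dc (φ₂ (mH K d)) (φ₂ (mA K d)) = (4 : K) • φ₂ (mA K d) := by
    rw [← map_dc, dcH_A, map_smul]
  have dAH : dc (φ₁ (mA K d)) (φ₁ (mH K d)) = (4 : K) • φ₁ (mH K d) := by
    rw [← map_dc, dcA_H, map_smul]
  have main : ∃ a b c g : K, X = comb d a b c g ∨ (d = 2 ∧ b = 0 ∧ c = 0 ∧ ∃ t : K,
      X = comb d a b c g + t • (mA K d * mH K d + mH K d * mA K d)) := by
    rcases (by omega : d = 1 ∨ 2 ≤ d) with h | hd2
    · subst h
      obtain ⟨a, b, c, g, h⟩ := case_one X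
      exact ⟨a, b, c, g, Or.inl h⟩
    -- commutation
    have cH : (dc (mH K d) X - (4 : K) • X) * mH K d = mH K d * (dc (mH K d) X - (4 : K) • X) := by
      apply φ₂.injective
      have := commute_of h2.1 h2.2.1 h2.2.2 dHA
      simpa only [map_mul, map_sub, map_smul, map_dc] using this
    have cA : (dc (mA K d) X - (4 : K) • X) * mA K d = mA K d * (dc (mA K d) X - (4 : K) • X) := by
      apply φ₁.injective
      have := commute_of h1.1 h1.2.1 h1.2.2 dAH
      simpa only [map_mul, map_sub, map_smul, map_dc] using this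
    -- quadratic
    have qH : ∃ q2 q1 q0 : K, dc (mH K d) X = (4 : K) • X + q2 • (mH K d * mH K d) + q1 • mH K d
        + q0 • 1 := by
      have := quad_of_commute (n := d + 1) (by omega) h3.2.2
        (Z := φ₃ (dc (mH K d) X - (4 : K) • X)) (by rw [← map_mul, ← map_mul, cH])
        (by
          intro i hi
          rw [map_sub, map_dc, map_smul]
          exact dc_col h3.1 h3.2.2 (by omega) i hi)
      obtain ⟨q2, q1, q0, hq⟩ := this
      refine ⟨q2, q1, q0, ?_⟩
      have h : dc (mH K d) X - (4 : K) • X = q2 • (mH K d * mH K d) + q1 • mH K d + q0 • 1 := by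
        apply φ₃.injective
        rw [hq]
        simp only [map_add, map_smul, map_mul, map_one]
      rw [sub_eq_iff_eq_add.mp h]
      abel
    have qA : ∃ q2 q1 q0 : K, dc (mA K d) X = (4 : K) • X + q2 • (mA K d * mA K d) + q1 • mA K d
        + q0 • 1 := by
      have := quad_of_commute (n := d + 1) (by omega) h3.2.1
        (Z := φ₃ (dc (mA K d) X - (4 : K) • X)) (by rw [← map_mul, ← map_mul, cA])
        (by
          intro i hi
          rw [map_sub, map_dc, map_smul]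
          exact dc_col h3.1 h3.2.1 (by omega) i hi)
      obtain ⟨q2, q1, q0, hq⟩ := this
      refine ⟨q2, q1, q0, ?_⟩
      have h : dc (mA K d) X - (4 : K) • X = q2 • (mA K d * mA K d) + q1 • mA K d + q0 • 1 := by
        apply φ₃.injective
        rw [hq]
        simp only [map_add, map_smul, map_mul, map_one]
      rw [sub_eq_iff_eq_add.mp h]
      abel
    -- tridiagonal in the standard basis
    have tri : ∀ i j : Fin (d + 1), (i : ℕ) + 1 < j ∨ (j : ℕ) + 1 < i → X i j = 0 := by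
      intro i j hij
      have h0 := sub_eq_zero.mpr cH
      have := congr_fun (congr_fun h0 i) j
      rw [mH, Matrix.sub_apply, mul_dg_apply, dg_mul_apply, ← mH, Matrix.sub_apply, dcH_apply,
        Matrix.smul_apply, smul_eq_mul, Matrix.zero_apply] at this
      have h5 : (8 * (((i : ℕ) : K) - (j : ℕ)) * (((i : ℕ) : K) - (j : ℕ) - 1)
        * (((i : ℕ) : K) - (j : ℕ) + 1)) * X i j = 0 := by linear_combination this
      rcases mul_eq_zero.mp h5 with h | h
      · exfalso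
        have e1 : ((i : ℕ) : K) - (j : ℕ) ≠ 0 := by
          rw [sub_ne_zero]; exact_mod_cast (by omega : (i : ℕ) ≠ j)
        have e2 : ((i : ℕ) : K) - (j : ℕ) - 1 ≠ 0 := by
          rw [sub_sub, sub_ne_zero]; exact_mod_cast (by omega : (i : ℕ) ≠ j + 1)
        have e3 : ((i : ℕ) : K) - (j : ℕ) + 1 ≠ 0 := by
          rw [show ((i : ℕ) : K) - (j : ℕ) + 1 = ((i : ℕ) + 1 : K) - (j : ℕ) by ring, sub_ne_zero]
          exact_mod_cast (by omega : (i : ℕ) + 1 ≠ j)
        exact mul_ne_zero (mul_ne_zero (mul_ne_zero (by norm_num) e1) e2) e3 h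
      · exact h
    obtain ⟨γ', ω', η', qH⟩ := qH
    obtain ⟨γ, ω, η, qA⟩ := qA
    obtain ⟨a, b, c, g, t, hX⟩ := five hd2 X tri qA qH
    have hX' : X = comb d a b c g + t • (mA K d * mH K d + mH K d * mA K d) := hX
    refine ⟨a, b, c, g, ?_⟩
    by_cases ht : t = 0
    · left; rw [hX', ht]; simp
    right
    -- the exact relations
    have dS : dc (mA K d) (mA K d * mH K d + mH K d * mA K d) =
        (4 : K) • (mA K d * mH K d + mH K d * mA K d) := by
      have : mA K d * mH K d + mH K d * mA K d = sP K d + sM K d := by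
        simp only [mA, sP, sM, mul_add, add_mul]; abel
      rw [this, dc_add, dcA_sP, dcA_sM]; module
    have dS' : dc (mH K d) (mA K d * mH K d + mH K d * mA K d) =
        (4 : K) • (mA K d * mH K d + mH K d * mA K d) := by
      simp only [dc, mA, mul_add, add_mul, mul_sub, sub_mul, smul_mul_assoc, mul_smul_comm,
        mul_assoc, rEF, rHE, rHF, rEF', rHE', rHF', smul_add, smul_sub, smul_smul]
      module
    have rA : dc (mA K d) X = (4 : K) • X + (-4 * b) • mA K d + (-4 * a) • 1 := by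
      rw [hX', dc_add, dc_smul, dcA_comb, dS, comb]; module
    have rH : dc (mH K d) X = (4 : K) • X + (-4 * c) • mH K d + (-4 * a) • 1 := by
      rw [hX', dc_add, dc_smul, dcH_comb, dS', comb_eq]; module
    obtain ⟨δ, κ, e1⟩ := dual_rel (T := φ₃ (mA K d)) (X := φ₃ X) h3.1 h3.2.1 (ω := -4 * b)
      (η := -4 * a) (by rw [← map_dc, rA]; simp only [map_add, map_smul, map_one])
    obtain ⟨δ', κ', e2⟩ := dual_rel (T := φ₃ (mH K d)) (X := φ₃ X) h3.1 h3.2.2 (ω := -4 * c)
      (η := -4 * a) (by rw [← map_dc, rH]; simp only [map_add, map_smul, map_one])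
    have f1 : dc X (mA K d) = δ • mA K d + (-4 * b) • X + κ • 1 := by
      apply φ₃.injective
      rw [map_dc, e1]; simp only [map_add, map_smul, map_one]
    have f2 : dc X (mH K d) = δ' • mH K d + (-4 * c) • X + κ' • 1 := by
      apply φ₃.injective
      rw [map_dc, e2]; simp only [map_add, map_smul, map_one]
    rcases (by omega : d = 2 ∨ 3 ≤ d) with h | h
    · subst h
      rw [hX'] at f1 f2
      obtain ⟨hb, hc⟩ := case_two a b c g t δ κ δ' κ' ht f1 f2
      exact ⟨rfl, hb, hc, t, hX'⟩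
    · rw [hX'] at f1
      exact absurd (no_five h a b c g t δ _ κ f1) ht
  obtain ⟨a, b, c, g, h | ⟨hd2, hb, hc, t, h⟩⟩ := main
  · left
    subst h
    obtain ⟨c1, c2, c3⟩ := conds hd a b c g φ₁ φ₂ φ₃ h1 h2 h3
    exact ⟨a, b, c, g, c1, c2, c3, rfl⟩
  · right
    subst hd2
    have hX : X = a • 1 + g • (mA K 2 * mH K 2 - mH K 2 * mA K 2) +
        t • (mA K 2 * mH K 2 + mH K 2 * mA K 2) := by
      rw [h, comb, hb, hc]; module
    refine ⟨rfl, a, g, t, ?_, hX⟩
    rw [hX] at h2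
    exact nondeg2 a g t φ₂ h2

end Pool.Agent.NH17.Leo
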