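import Pool.Agent.NH17.Leo.Backward

/-!
Leonard triples containing the Krawtchouk pair `e + f`, `h`: the classification.
-/

namespace Pool.Agent.NH17.Leo

open Matrix

variable {K : Type*} [Field K] {n d : ℕ}

lemma matA_eq : matA K d = mA K d := by
  ext i j
  simp only [matA, mA, mE, mF, up, dn, Matrix.of_apply, Matrix.add_apply]
  split_ifs with h1 h2
  · omega
  · simp
  · simp
  · simp

lemma matAstar_eq : matAstar K d = mH K d := by
  ext i j
  simp only [matAstar, mH, dg]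
  by_cases h : i = j
  · subst h; simp
  · have : (i : ℕ) ≠ j := fun h' => h (Fin.ext h')
    simp [Matrix.diagonal_apply_ne _ h, this]

/-- `DiagTriTri` in terms of automorphisms -/
lemma diagTri_fwd {X Y Z : Matrix (Fin (d + 1)) (Fin (d + 1)) K}
    (h : DiagTriTri (Matrix.toLin' X) (Matrix.toLin' Y) (Matrix.toLin' Z)) :
    ∃ φ : Matrix (Fin (d + 1)) (Fin (d + 1)) K ≃ₐ[K] Matrix (Fin (d + 1)) (Fin (d + 1)) K,
      (φ X).IsDiag ∧ IrredTridiag (φ Y) ∧ IrredTridiag (φ Z) := by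
  obtain ⟨n, b, h1, h2, h3⟩ := h
  obtain ⟨hn, φ, hφ⟩ := aut_of b
  subst hn
  rw [hφ] at h1 h2 h3
  exact ⟨φ, h1, h2, h3⟩

lemma diagTri_bwd {X Y Z P Q : Matrix (Fin (d + 1)) (Fin (d + 1)) K} (h : P * Q = 1)
    (h' : Q * P = 1) (h1 : (P * X * Q).IsDiag) (h2 : IrredTridiag (P * Y * Q))
    (h3 : IrredTridiag (P * Z * Q)) :
    DiagTriTri (Matrix.toLin' X) (Matrix.toLin' Y) (Matrix.toLin' Z) := by
  obtain ⟨b, hb⟩ := basis_of h h'
  exact ⟨d + 1, b, by rw [hb]; exact h1, by rw [hb]; exact h2, by rw [hb]; exact h3⟩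

/-- the shape of one eigenbasis for elements of the Lie algebra -/
lemma one_basis [CharZero K] [IsAlgClosed K] (a b c g a₁ b₁ c₁ g₁ a₂ b₂ c₂ g₂ : K)
    (h : b ^ 2 + c ^ 2 - 4 * g ^ 2 ≠ 0)
    (h1 : (b ^ 2 + c ^ 2 - 4 * g ^ 2) * (b₁ ^ 2 + c₁ ^ 2 - 4 * g₁ ^ 2) -
      (b * b₁ + c * c₁ - 4 * g * g₁) ^ 2 ≠ 0)
    (h2 : (b ^ 2 + c ^ 2 - 4 * g ^ 2) * (b₂ ^ 2 + c₂ ^ 2 - 4 * g₂ ^ 2) -
      (b * b₂ + c * c₂ - 4 * g * g₂) ^ 2 ≠ 0) :
    DiagTriTri (Matrix.toLin' (comb d a b c g)) (Matrix.toLin' (comb d a₁ b₁ c₁ g₁))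
      (Matrix.toLin' (comb d a₂ b₂ c₂ g₂)) := by
  obtain ⟨P, Q, l, pq, qp, hd, hall⟩ := diagonalise (d := d) (b - 2 * g) c (b + 2 * g)
    (by intro h'; apply h; linear_combination h')
  have shift : ∀ a : K, ∀ M : Matrix (Fin (d + 1)) (Fin (d + 1)) K,
      P * (a • 1 + M) * Q = a • 1 + P * M * Q := by
    intro a M
    rw [mul_add, add_mul, mul_smul_comm, mul_one, smul_mul_assoc, pq]
  have e : ∀ a b c g : K, comb d a b c g = a • 1 + ((b - 2 * g) • mE K d + c • mH K d +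
    (b + 2 * g) • mF K d) := by
    intro a b c g
    rw [comb_eq]; abel
  have tri : ∀ a₁ b₁ c₁ g₁ : K, (b ^ 2 + c ^ 2 - 4 * g ^ 2) * (b₁ ^ 2 + c₁ ^ 2 - 4 * g₁ ^ 2) -
      (b * b₁ + c * c₁ - 4 * g * g₁) ^ 2 ≠ 0 → IrredTridiag (P * comb d a₁ b₁ c₁ g₁ * Q) := by
    intro a₁ b₁ c₁ g₁ h
    obtain ⟨x, y, z, hx, hy⟩ := hall (b₁ - 2 * g₁) c₁ (b₁ + 2 * g₁)
    rw [e, shift, hx]
    have : l ^ 2 * x * z ≠ 0 := by
      rw [hy]; intro h'; apply h; linear_combination h'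
    apply irred_of
    · rintro rfl; simp at this
    · rintro rfl; simp at this
  refine diagTri_bwd pq qp ?_ (tri _ _ _ _ h1) (tri _ _ _ _ h2)
  rw [e, shift, hd]
  exact diag_of _ _

lemma comb_A : comb d 0 1 0 0 = mA K d := by simp [comb]
lemma comb_H : comb d 0 0 1 0 = mH K d := by simp [comb]

/-- sufficiency, first family -/
theorem backward1 [CharZero K] [IsAlgClosed K] (a b c g : K) (h1 : b ^ 2 ≠ 4 * g ^ 2)
    (h2 : c ^ 2 ≠ 4 * g ^ 2) (h3 : b ^ 2 + c ^ 2 ≠ 4 * g ^ 2) :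
    IsLeonardTriple (Matrix.toLin' (mA K d)) (Matrix.toLin' (mH K d))
      (Matrix.toLin' (comb d a b c g)) := by
  rw [← comb_A, ← comb_H]
  refine ⟨?_, ?_, ?_⟩
  · apply one_basis
    · simp
    · simp
    · intro h; apply h2; linear_combination h
  · apply one_basis
    · simp
    · simp
    · intro h; apply h1; linear_combination h
  · apply one_basis
    · intro h; apply h3; linear_combination h
    · intro h; apply h2; linear_combination h
    · intro h; apply h1; linear_combination h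

lemma irred3 (x₀ x₁ x₂ y₀ y₁ z₀ z₁ : K) (h₁ : y₀ ≠ 0) (h₂ : y₁ ≠ 0) (h₃ : z₀ ≠ 0) (h₄ : z₁ ≠ 0) :
    IrredTridiag !![x₀, y₀, 0; z₀, x₁, y₁; 0, z₁, x₂] := by
  constructor
  · intro i j hij
    fin_cases i <;> fin_cases j <;> simp_all
  · intro i j hij
    fin_cases i <;> fin_cases j <;> simp_all

lemma diag3 (x₀ x₁ x₂ : K) : (!![x₀, 0, 0; 0, x₁, 0; 0, 0, x₂] : Matrix (Fin 3) (Fin 3) K).IsDiag := by
  intro i j hij
  fin_cases i <;> fin_cases j <;> simp_all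

set_option maxHeartbeats 4000000 in
/-- sufficiency, second family -/
theorem backward2 [CharZero K] [IsAlgClosed K] (a g t : K) (h : t ^ 2 ≠ g ^ 2) :
    IsLeonardTriple (Matrix.toLin' (mA K 2)) (Matrix.toLin' (mH K 2))
      (Matrix.toLin' (a • 1 + g • (mA K 2 * mH K 2 - mH K 2 * mA K 2) +
        t • (mA K 2 * mH K 2 + mH K 2 * mA K 2))) := by
  have hX : a • 1 + g • (mA K 2 * mH K 2 - mH K 2 * mA K 2) +
      t • (mA K 2 * mH K 2 + mH K 2 * mA K 2) =
      !![a, 4 * (t - g), 0; 2 * (t + g), a, -2 * (t + g); 0, -4 * (t - g), a] := by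
    have := X2 a 0 0 g t
    rw [comb] at this
    simp only [zero_smul, add_zero] at this
    rw [this]
    ext i j
    fin_cases i <;> fin_cases j <;> simp <;> ring
  have p1 : t - g ≠ 0 := by intro h'; apply h; linear_combination (t + g) * h'
  have p2 : t + g ≠ 0 := by intro h'; apply h; linear_combination (t - g) * h'
  rw [hX, mA2, mH2]
  obtain ⟨μ, hμ⟩ := IsAlgClosed.exists_pow_nat_eq (16 * (t ^ 2 - g ^ 2)) (n := 2) (by norm_num)
  have hμ0 : μ ≠ 0 := by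
    rintro rfl
    apply h
    linear_combination -hμ / 16
  refine ⟨?_, ?_, ?_⟩
  · have e1 : (!![1/4, 1/2, 1/4; 1/2, 0, -1/2; 1/4, -1/2, 1/4] : Matrix (Fin 3) (Fin 3) K) *
        !![0, 2, 0; 1, 0, 1; 0, 2, 0] * !![1, 1, 1; 1, 0, -1; 1, -1, 1] =
        !![2, 0, 0; 0, 0, 0; 0, 0, -2] := by
      ext i j
      fin_cases i <;> fin_cases j <;> simp [Matrix.mul_apply, Fin.sum_univ_three] <;> norm_num
    have e2 : (!![1/4, 1/2, 1/4; 1/2, 0, -1/2; 1/4, -1/2, 1/4] : Matrix (Fin 3) (Fin 3) K) *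
        !![2, 0, 0; 0, 0, 0; 0, 0, -2] * !![1, 1, 1; 1, 0, -1; 1, -1, 1] =
        !![0, 1, 0; 2, 0, 2; 0, 1, 0] := by
      ext i j
      fin_cases i <;> fin_cases j <;> simp [Matrix.mul_apply, Fin.sum_univ_three] <;> norm_num
    have e3 : (!![1/4, 1/2, 1/4; 1/2, 0, -1/2; 1/4, -1/2, 1/4] : Matrix (Fin 3) (Fin 3) K) *
        !![a, 4 * (t - g), 0; 2 * (t + g), a, -2 * (t + g); 0, -4 * (t - g), a] *
        !![1, 1, 1; 1, 0, -1; 1, -1, 1] =
        !![a, 2 * (t + g), 0; 4 * (t - g), a, -4 * (t - g); 0, -2 * (t + g), a] := by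
      ext i j
      fin_cases i <;> fin_cases j <;> simp [Matrix.mul_apply, Fin.sum_univ_three] <;> ring
    refine diagTri_bwd (P := !![1/4, 1/2, 1/4; 1/2, 0, -1/2; 1/4, -1/2, 1/4])
      (Q := !![1, 1, 1; 1, 0, -1; 1, -1, 1]) ?_ ?_ ?_ ?_ ?_
    · ext i j
      fin_cases i <;> fin_cases j <;> simp [Matrix.mul_apply, Fin.sum_univ_three] <;> norm_num
    · ext i j
      fin_cases i <;> fin_cases j <;> simp [Matrix.mul_apply, Fin.sum_univ_three] <;> norm_num
    · rw [e1]; exact diag3 _ _ _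
    · rw [e2]; exact irred3 _ _ _ _ _ _ _ (by norm_num) (by norm_num) (by norm_num) (by norm_num)
    · rw [e3]; apply irred3 <;> simp [p1, p2]
  · refine diagTri_bwd (P := 1) (Q := 1) (one_mul _) (one_mul _) ?_ ?_ ?_
    · rw [one_mul, mul_one]; exact diag3 _ _ _
    · rw [one_mul, mul_one]; apply irred3 <;> simp
    · rw [one_mul, mul_one]; apply irred3 <;> simp [p1, p2]
  · have e1 : (!![1/(16 * (t - g)), 1/(2 * μ), -1/(16 * (t - g)); 1/2, 0, 1/2;
        1/(16 * (t - g)), -1/(2 * μ), -1/(16 * (t - g))] : Matrix (Fin 3) (Fin 3) K) *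
        !![a, 4 * (t - g), 0; 2 * (t + g), a, -2 * (t + g); 0, -4 * (t - g), a] *
        !![4 * (t - g), 1, 4 * (t - g); μ, 0, -μ; -4 * (t - g), 1, -4 * (t - g)] =
        !![a + μ, 0, 0; 0, a, 0; 0, 0, a - μ] := by
      ext i j
      fin_cases i <;> fin_cases j <;> simp [Matrix.mul_apply, Fin.sum_univ_three] <;> field_simp <;>
        first | ring1 | linear_combination (16 : K) * hμ | linear_combination -(16 : K) * hμ
    have e2 : (!![1/(16 * (t - g)), 1/(2 * μ), -1/(16 * (t - g)); 1/2, 0, 1/2;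
        1/(16 * (t - g)), -1/(2 * μ), -1/(16 * (t - g))] : Matrix (Fin 3) (Fin 3) K) *
        !![0, 2, 0; 1, 0, 1; 0, 2, 0] *
        !![4 * (t - g), 1, 4 * (t - g); μ, 0, -μ; -4 * (t - g), 1, -4 * (t - g)] =
        !![0, 1 / μ, 0; 2 * μ, 0, -2 * μ; 0, -1 / μ, 0] := by
      ext i j
      fin_cases i <;> fin_cases j <;> simp [Matrix.mul_apply, Fin.sum_univ_three] <;> field_simp <;>
        first | ring1 | (left; ring1) | (left; norm_num) | norm_num | linear_combination hμ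
    have e3 : (!![1/(16 * (t - g)), 1/(2 * μ), -1/(16 * (t - g)); 1/2, 0, 1/2;
        1/(16 * (t - g)), -1/(2 * μ), -1/(16 * (t - g))] : Matrix (Fin 3) (Fin 3) K) *
        !![2, 0, 0; 0, 0, 0; 0, 0, -2] *
        !![4 * (t - g), 1, 4 * (t - g); μ, 0, -μ; -4 * (t - g), 1, -4 * (t - g)] =
        !![0, 1 / (4 * (t - g)), 0; 8 * (t - g), 0, 8 * (t - g); 0, 1 / (4 * (t - g)), 0] := by
      ext i j
      fin_cases i <;> fin_cases j <;> simp [Matrix.mul_apply, Fin.sum_univ_three] <;> field_simp <;>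
        first | ring1 | (left; ring1) | (left; norm_num) | norm_num | linear_combination hμ
    refine diagTri_bwd (P := !![1/(16 * (t - g)), 1/(2 * μ), -1/(16 * (t - g)); 1/2, 0, 1/2;
        1/(16 * (t - g)), -1/(2 * μ), -1/(16 * (t - g))])
      (Q := !![4 * (t - g), 1, 4 * (t - g); μ, 0, -μ; -4 * (t - g), 1, -4 * (t - g)]) ?_ ?_ ?_ ?_ ?_
    · ext i j
      fin_cases i <;> fin_cases j <;> simp [Matrix.mul_apply, Fin.sum_univ_three] <;> field_simp <;>
        ring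
    · ext i j
      fin_cases i <;> fin_cases j <;> simp [Matrix.mul_apply, Fin.sum_univ_three] <;> field_simp <;>
        ring
    · rw [e1]; exact diag3 _ _ _
    · rw [e2]; apply irred3 <;> simp [hμ0]
    · rw [e3]; apply irred3 <;> simp [p1]

end Pool.Agent.NH17.Leo
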