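import Pool.Agent.NH17.Leo.Basic

/-!
Leonard triples containing the Krawtchouk pair `e + f`, `h`: the five dimensional space.
-/

namespace Pool.Agent.NH17.Leo

open Matrix

variable {K : Type*} [Field K] {n d : ℕ}

/-- `A = e + f` -/
def mA (K : Type*) [Field K] (d : ℕ) : Matrix (Fin (d + 1)) (Fin (d + 1)) K := mE K d + mF K d

lemma up3_apply (x y z : ℕ → K) (i : ℕ) (h : i + 3 < n) :
    (up x * (up y * up z) : Matrix (Fin n) (Fin n) K) ⟨i, by omega⟩ ⟨i + 3, h⟩
      = x i * (y (i + 1) * z (i + 2)) := by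
  rw [up_mul_apply, dif_pos (by simp; omega), up_mul_apply, dif_pos (by simp; omega)]
  simp [up]

lemma up2_apply (x y : ℕ → K) (i : ℕ) (h : i + 2 < n) :
    (up x * up y : Matrix (Fin n) (Fin n) K) ⟨i, by omega⟩ ⟨i + 2, h⟩
      = x i * y (i + 1) := by
  rw [up_mul_apply, dif_pos (by simp; omega)]
  simp [up]

lemma dn3_apply (x y z : ℕ → K) (i : ℕ) (h : i + 3 < n) :
    (dn x * (dn y * dn z) : Matrix (Fin n) (Fin n) K) ⟨i + 3, h⟩ ⟨i, by omega⟩
      = x (i + 2) * (y (i + 1) * z i) := by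
  rw [dn_mul_apply, dif_pos (by simp), dn_mul_apply, dif_pos (by simp)]
  simp [dn]

/-- linearity of the coefficients -/
lemma lin_aux (m : ℕ) (y : ℕ → K) (h : ∀ i, i + 3 ≤ m → y i - 2 * y (i + 1) + y (i + 2) = 0) :
    ∀ i, i < m → y i = y 0 + (y 1 - y 0) * i := by
  intro i
  induction i using Nat.strong_induction_on with
  | _ i ih =>
    intro hi
    match i, ih, hi with
    | 0, _, _ => simp
    | 1, _, _ => simp
    | i + 2, ih, hi =>
      have h1 := ih i (by omega) (by omega)
      have h2 := ih (i + 1) (by omega) (by omega)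
      have h3 := h i (by omega)
      push_cast at *
      linear_combination h3 - h1 + 2 * h2

lemma lin_up (c x : ℕ → K) (hc : ∀ i < d, c i ≠ 0)
    (h : (up c * (up c * up x)) - (2 : K) • (up c * (up x * up c)) + up x * (up c * up c)
      = (0 : Matrix (Fin (d + 1)) (Fin (d + 1)) K)) :
    ∃ α β : K, ∀ i < d, x i = c i * (α + β * i) := by
  have key : ∀ i, i + 3 ≤ d → (x i / c i) - 2 * (x (i + 1) / c (i + 1)) + x (i + 2) / c (i + 2)
      = 0 := by
    intro i hi
    have := congr_fun (congr_fun h ⟨i, by omega⟩) ⟨i + 3, by omega⟩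
    rw [Matrix.add_apply, Matrix.sub_apply, Matrix.smul_apply, up3_apply _ _ _ _ (by omega),
      up3_apply _ _ _ _ (by omega), up3_apply _ _ _ _ (by omega), smul_eq_mul,
      Matrix.zero_apply] at this
    have h0 := hc i (by omega)
    have h1 := hc (i + 1) (by omega)
    have h2 := hc (i + 2) (by omega)
    field_simp
    linear_combination this
  have := lin_aux d (fun i => x i / c i) key
  refine ⟨x 0 / c 0, x 1 / c 1 - x 0 / c 0, fun i hi => ?_⟩
  have h1 := this i hi
  rw [← h1, mul_div_cancel₀ _ (hc i hi)]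

lemma lin_dn (c x : ℕ → K) (hc : ∀ i < d, c i ≠ 0)
    (h : (dn c * (dn c * dn x)) - (2 : K) • (dn c * (dn x * dn c)) + dn x * (dn c * dn c)
      = (0 : Matrix (Fin (d + 1)) (Fin (d + 1)) K)) :
    ∃ α β : K, ∀ i < d, x i = c i * (α + β * i) := by
  have key : ∀ i, i + 3 ≤ d → (x i / c i) - 2 * (x (i + 1) / c (i + 1)) + x (i + 2) / c (i + 2)
      = 0 := by
    intro i hi
    have := congr_fun (congr_fun h ⟨i + 3, by omega⟩) ⟨i, by omega⟩
    rw [Matrix.add_apply, Matrix.sub_apply, Matrix.smul_apply, dn3_apply _ _ _ _ (by omega),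
      dn3_apply _ _ _ _ (by omega), dn3_apply _ _ _ _ (by omega), smul_eq_mul,
      Matrix.zero_apply] at this
    have h0 := hc i (by omega)
    have h1 := hc (i + 1) (by omega)
    have h2 := hc (i + 2) (by omega)
    field_simp
    linear_combination this
  have := lin_aux d (fun i => x i / c i) key
  refine ⟨x 0 / c 0, x 1 / c 1 - x 0 / c 0, fun i hi => ?_⟩
  have h1 := this i hi
  rw [← h1, mul_div_cancel₀ _ (hc i hi)]

/-- the two symmetric elements -/
lemma EHHE : mE K d * mH K d + mH K d * mE K d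
    = up (fun i => ((d : K) - i) * (2 * d - 2 - 4 * i)) := by
  ext i j
  rw [Matrix.add_apply, mH, mul_dg_apply, dg_mul_apply]
  simp only [mE, up]
  split_ifs with h
  · rw [← h]; push_cast; ring
  · simp

lemma FHHF : mF K d * mH K d + mH K d * mF K d
    = dn (fun i => ((i : K) + 1) * (2 * d - 2 - 4 * i)) := by
  ext i j
  rw [Matrix.add_apply, mH, mul_dg_apply, dg_mul_apply]
  simp only [mF, dn]
  split_ifs with h
  · rw [← h]; push_cast; ring
  · simp

lemma up_congr {x y : ℕ → K} (h : ∀ i < d, x i = y i) :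
    (up x : Matrix (Fin (d + 1)) (Fin (d + 1)) K) = up y := by
  ext i j
  simp only [up]
  split_ifs with h'
  · exact h _ (by omega)
  · rfl

lemma dn_congr {x y : ℕ → K} (h : ∀ i < d, x i = y i) :
    (dn x : Matrix (Fin (d + 1)) (Fin (d + 1)) K) = dn y := by
  ext i j
  simp only [dn]
  split_ifs with h'
  · exact h _ (by omega)
  · rfl

lemma up_lin [CharZero K] (α β : K) :
    (up (fun i => ((d : K) - i) * (α + β * i)) : Matrix (Fin (d + 1)) (Fin (d + 1)) K)
      = (α + β * (2 * d - 2) / 4) • mE K d - (β / 4) • (mE K d * mH K d + mH K d * mE K d) := by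
  rw [EHHE]
  ext i j
  simp only [mE, up, Matrix.sub_apply, Matrix.smul_apply, smul_eq_mul]
  split_ifs with h
  · field_simp; ring
  · simp

lemma dn_lin [CharZero K] (α β : K) :
    (dn (fun i => ((i : K) + 1) * (α + β * i)) : Matrix (Fin (d + 1)) (Fin (d + 1)) K)
      = (α + β * (2 * d - 2) / 4) • mF K d - (β / 4) • (mF K d * mH K d + mH K d * mF K d) := by
  rw [FHHF]
  ext i j
  simp only [mF, dn, Matrix.sub_apply, Matrix.smul_apply, smul_eq_mul]
  split_ifs with h
  · field_simp; ring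
  · simp

/-- decomposition of a tridiagonal matrix -/
lemma tri_decomp (X : Matrix (Fin (d + 1)) (Fin (d + 1)) K)
    (hX : ∀ i j : Fin (d + 1), (i : ℕ) + 1 < j ∨ (j : ℕ) + 1 < i → X i j = 0) :
    ∃ x y z : ℕ → K, X = up x + dg y + dn z := by
  refine ⟨fun i => if h : i + 1 < d + 1 then X ⟨i, by omega⟩ ⟨i + 1, h⟩ else 0,
    fun i => if h : i < d + 1 then X ⟨i, h⟩ ⟨i, h⟩ else 0,
    fun i => if h : i + 1 < d + 1 then X ⟨i + 1, h⟩ ⟨i, by omega⟩ else 0, ?_⟩
  ext i j
  obtain ⟨i, hi⟩ := i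
  obtain ⟨j, hj⟩ := j
  simp only [Matrix.add_apply, up, dg, dn]
  rcases lt_trichotomy i j with h | h | h
  · by_cases h' : i + 1 = j
    · subst h'
      simp [hj]; omega
    · rw [hX _ _ (Or.inl (by simp; omega))]
      rw [if_neg h', if_neg (by omega), if_neg (by omega)]; simp
  · subst h
    simp [hi]
  · by_cases h' : j + 1 = i
    · subst h'
      simp [hi]; omega
    · rw [hX _ _ (Or.inr (by simp; omega))]
      rw [if_neg h', if_neg (by omega), if_neg (by omega)]; simp

/-! ### normal forms -/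

lemma rEF' (x : Matrix (Fin (d + 1)) (Fin (d + 1)) K) :
    mE K d * (mF K d * x) = mF K d * (mE K d * x) + mH K d * x := by
  rw [← mul_assoc, rEF, add_mul, mul_assoc]

lemma rHE' (x : Matrix (Fin (d + 1)) (Fin (d + 1)) K) :
    mH K d * (mE K d * x) = mE K d * (mH K d * x) + (2 : K) • (mE K d * x) := by
  rw [← mul_assoc, rHE, add_mul, mul_assoc, smul_mul_assoc]

lemma rHF' (x : Matrix (Fin (d + 1)) (Fin (d + 1)) K) :
    mH K d * (mF K d * x) = mF K d * (mH K d * x) - (2 : K) • (mF K d * x) := by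
  rw [← mul_assoc, rHF, sub_mul, mul_assoc, smul_mul_assoc]

/-- the generators -/
def sP (K : Type*) [Field K] (d : ℕ) : Matrix (Fin (d + 1)) (Fin (d + 1)) K :=
  mE K d * mH K d + mH K d * mE K d
/-- the generators -/
def sM (K : Type*) [Field K] (d : ℕ) : Matrix (Fin (d + 1)) (Fin (d + 1)) K :=
  mF K d * mH K d + mH K d * mF K d

/-- double commutator -/
def dc {R : Type*} [Ring R] (T X : R) : R := T * (T * X - X * T) - (T * X - X * T) * T

lemma dcA_H2 : dc (mA K d) (mH K d * mH K d) = (8 : K) • (mE K d * mE K d + mF K d * mF K d)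
    + (8 : K) • (mH K d * mH K d - mE K d * mF K d - mF K d * mE K d) := by
  simp only [dc, mA, mul_add, add_mul, mul_sub, sub_mul, smul_mul_assoc, mul_smul_comm, mul_assoc,
    rEF, rHE, rHF, rEF', rHE', rHF', smul_add, smul_sub, smul_smul]
  module

lemma dcA_H : dc (mA K d) (mH K d) = (4 : K) • mH K d := by
  simp only [dc, mA, mul_add, add_mul, mul_sub, sub_mul, smul_mul_assoc, mul_smul_comm, mul_assoc,
    rEF, rHE, rHF, rEF', rHE', rHF', smul_add, smul_sub, smul_smul]
  module

lemma dcH_A : dc (mH K d) (mA K d) = (4 : K) • mA K d := by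
  simp only [dc, mA, mul_add, add_mul, mul_sub, sub_mul, smul_mul_assoc, mul_smul_comm, mul_assoc,
    rEF, rHE, rHF, rEF', rHE', rHF', smul_add, smul_sub, smul_smul]
  module

end Pool.Agent.NH17.Leo
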