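import Pool.Agent.NH17.Leo.Five

/-!
Leonard triples containing the Krawtchouk pair `e + f`, `h`: general facts on irreducible
tridiagonal matrices.
-/

namespace Pool.Agent.NH17.Leo

open Matrix

variable {K : Type*} [Field K] {n d : ℕ}

lemma zero_of_col {T W : Matrix (Fin n) (Fin n) K} (hT : IrredTridiag T) (hc : W * T = T * W)
    (h0 : ∀ i, ∀ h : 0 < n, W i ⟨0, h⟩ = 0) : W = 0 := by
  have key : ∀ k, ∀ hk : k < n, ∀ i, W i ⟨k, hk⟩ = 0 := by
    intro k
    induction k using Nat.strong_induction_on with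
    | _ k ih =>
      intro hk i
      match k, ih, hk with
      | 0, _, hk => exact h0 i hk
      | k + 1, ih, hk =>
        have h1 := congr_fun (congr_fun hc i) ⟨k, by omega⟩
        rw [Matrix.mul_apply, Matrix.mul_apply] at h1
        rw [Finset.sum_eq_zero (s := Finset.univ) (f := fun m => T i m * W m ⟨k, by omega⟩)
          (fun m _ => by rw [ih k (by omega) (by omega) m, mul_zero])] at h1
        rw [Finset.sum_eq_single ⟨k + 1, hk⟩] at h1
        · rcases mul_eq_zero.mp h1 with h | h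
          · exact h
          · exact absurd h (hT.2 _ _ (Or.inr (by simp)))
        · intro b _ hb
          rcases lt_trichotomy (b : ℕ) (k + 1) with h | h | h
          · have := ih b h b.2 i
            rw [show (⟨(b : ℕ), b.2⟩ : Fin n) = b from rfl] at this
            rw [this, zero_mul]
          · exact absurd (Fin.ext h) hb
          · rw [hT.1 b ⟨k, by omega⟩ (Or.inr h), mul_zero]
        · simp
  ext i j
  exact key j j.2 i

lemma quad_of_commute (hn : 3 ≤ n) {T Z : Matrix (Fin n) (Fin n) K} (hT : IrredTridiag T)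
    (hc : Z * T = T * Z) (h0 : ∀ i : Fin n, 3 ≤ (i : ℕ) → Z i ⟨0, by omega⟩ = 0) :
    ∃ q2 q1 q0 : K, Z = q2 • (T * T) + q1 • T + q0 • 1 := by
  set o : Fin n := ⟨0, by omega⟩ with ho
  set u : Fin n := ⟨1, by omega⟩ with hu
  set v : Fin n := ⟨2, by omega⟩ with hv
  have hTT : (T * T) v o = T v u * T u o := by
    rw [Matrix.mul_apply, Finset.sum_eq_single u]
    · intro b _ hb
      have hb' : (b : ℕ) ≠ 1 := fun h => hb (Fin.ext h)
      rcases Nat.lt_or_ge (b : ℕ) 2 with h | h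
      · rw [hT.1 v b (Or.inr (by simp [hv]; omega)), zero_mul]
      · rw [hT.1 b o (Or.inr (by simp [ho]; omega)), mul_zero]
    · simp
  have hvu : T v u ≠ 0 := hT.2 _ _ (Or.inr (by simp [hv, hu]))
  have huo : T u o ≠ 0 := hT.2 _ _ (Or.inr (by simp [ho, hu]))
  have hTT0 : (T * T) v o ≠ 0 := by rw [hTT]; exact mul_ne_zero hvu huo
  obtain ⟨q2, hq2⟩ : ∃ q2, Z v o = q2 * (T * T) v o := ⟨Z v o / (T * T) v o, by
    rw [div_mul_cancel₀ _ hTT0]⟩
  obtain ⟨q1, hq1⟩ : ∃ q1, Z u o - q2 * (T * T) u o = q1 * T u o :=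
    ⟨(Z u o - q2 * (T * T) u o) / T u o, by rw [div_mul_cancel₀ _ huo]⟩
  refine ⟨q2, q1, Z o o - q2 * (T * T) o o - q1 * T o o, ?_⟩
  rw [← sub_eq_zero]
  apply zero_of_col hT
  · simp only [sub_mul, mul_sub, add_mul, mul_add, hc, smul_mul_assoc, mul_smul_comm, one_mul,
      mul_one, mul_assoc]
  · intro i _
    simp only [Matrix.sub_apply, Matrix.add_apply, Matrix.smul_apply, smul_eq_mul, ← ho]
    by_cases h3 : 3 ≤ (i : ℕ)
    · rw [h0 i h3, hT.1 i o (Or.inr (by simp [ho]; omega)), Matrix.one_apply_ne, Matrix.mul_apply,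
        Finset.sum_eq_zero]
      · simp
      · intro b _
        rcases Nat.lt_or_ge (b : ℕ) 2 with h | h
        · rw [hT.1 i b (Or.inr (by omega)), zero_mul]
        · rw [hT.1 b o (Or.inr (by simp [ho]; omega)), mul_zero]
      · intro h; rw [h] at h3; simp [ho] at h3
    · have : i = v ∨ i = u ∨ i = o := by
        rcases (by omega : (i : ℕ) = 2 ∨ (i : ℕ) = 1 ∨ (i : ℕ) = 0) with h | h | h
        · left; exact Fin.ext h
        · right; left; exact Fin.ext h
        · right; right; exact Fin.ext h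
      rcases this with rfl | rfl | rfl
      · rw [hT.1 v o (Or.inr (by simp [ho, hv])), Matrix.one_apply_ne (by simp [ho, hv]), hq2]
        ring
      · rw [Matrix.one_apply_ne (by simp [ho, hu])]
        linear_combination hq1
      · rw [Matrix.one_apply_eq]; ring

/-- entries of the double commutator with a diagonal matrix -/
lemma dc_diag_apply {D : Matrix (Fin n) (Fin n) K} (hD : D.IsDiag) (X : Matrix (Fin n) (Fin n) K)
    (i j : Fin n) : dc D X i j = (D i i - D j j) ^ 2 * X i j := by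
  have h1 : ∀ M : Matrix (Fin n) (Fin n) K, ∀ i j, (D * M) i j = D i i * M i j := by
    intro M i j
    rw [Matrix.mul_apply, Finset.sum_eq_single i]
    · intro b _ hb; rw [hD hb.symm, zero_mul]
    · simp
  have h2 : ∀ M : Matrix (Fin n) (Fin n) K, ∀ i j, (M * D) i j = M i j * D j j := by
    intro M i j
    rw [Matrix.mul_apply, Finset.sum_eq_single j]
    · intro b _ hb; rw [hD hb, mul_zero]
    · simp
  simp only [dc]
  rw [Matrix.sub_apply, h1, h2, Matrix.sub_apply, h1, h2]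
  ring

lemma comm_diag_apply {D : Matrix (Fin n) (Fin n) K} (hD : D.IsDiag) (X : Matrix (Fin n) (Fin n) K)
    (i j : Fin n) : (D * X - X * D) i j = (D i i - D j j) * X i j := by
  have h1 : ∀ M : Matrix (Fin n) (Fin n) K, ∀ i j, (D * M) i j = D i i * M i j := by
    intro M i j
    rw [Matrix.mul_apply, Finset.sum_eq_single i]
    · intro b _ hb; rw [hD hb.symm, zero_mul]
    · simp
  have h2 : ∀ M : Matrix (Fin n) (Fin n) K, ∀ i j, (M * D) i j = M i j * D j j := by
    intro M i j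
    rw [Matrix.mul_apply, Finset.sum_eq_single j]
    · intro b _ hb; rw [hD hb, mul_zero]
    · simp
  rw [Matrix.sub_apply, h1, h2]
  ring

lemma adj_sq {D T : Matrix (Fin n) (Fin n) K} (hD : D.IsDiag) (hT : IrredTridiag T)
    (h : dc D T = (4 : K) • T) (i j : Fin n) (hij : (i : ℕ) + 1 = j ∨ (j : ℕ) + 1 = i) :
    (D i i - D j j) ^ 2 = 4 := by
  have := congr_fun (congr_fun h i) j
  rw [dc_diag_apply hD, Matrix.smul_apply, smul_eq_mul] at this
  exact mul_right_cancel₀ (hT.2 i j hij) this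

lemma commute_of {D T X : Matrix (Fin n) (Fin n) K} (hD : D.IsDiag) (hT : IrredTridiag T)
    (hX : IrredTridiag X) (h : dc D T = (4 : K) • T) :
    (dc D X - (4 : K) • X) * D = D * (dc D X - (4 : K) • X) := by
  symm
  rw [← sub_eq_zero]
  ext i j
  rw [comm_diag_apply hD, Matrix.sub_apply, dc_diag_apply hD, Matrix.smul_apply, smul_eq_mul,
    Matrix.zero_apply]
  by_cases h1 : i = j
  · subst h1; simp
  have h1' : (i : ℕ) ≠ j := fun h => h1 (Fin.ext h)
  by_cases h2 : (i : ℕ) + 1 = j ∨ (j : ℕ) + 1 = i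
  · rw [adj_sq hD hT h i j h2]; ring
  · rw [hX.1 i j (by omega)]; simp

/-- The double commutator of an irreducible tridiagonal and a diagonal matrix has its first
column supported in the first three rows. -/
lemma dc_col {T X : Matrix (Fin n) (Fin n) K} (hX : X.IsDiag) (hT : IrredTridiag T) (hn : 3 ≤ n)
    (i : Fin n) (hi : 3 ≤ (i : ℕ)) : (dc T X - (4 : K) • X) i ⟨0, by omega⟩ = 0 := by
  set o : Fin n := ⟨0, by omega⟩ with ho
  have h1 : ∀ M : Matrix (Fin n) (Fin n) K, ∀ i j, (X * M) i j = X i i * M i j := by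
    intro M i j
    rw [Matrix.mul_apply, Finset.sum_eq_single i]
    · intro b _ hb; rw [hX hb.symm, zero_mul]
    · simp
  have h2 : ∀ M : Matrix (Fin n) (Fin n) K, ∀ i j, (M * X) i j = M i j * X j j := by
    intro M i j
    rw [Matrix.mul_apply, Finset.sum_eq_single j]
    · intro b _ hb; rw [hX hb, mul_zero]
    · simp
  have hio : i ≠ o := by intro h; rw [h] at hi; simp [ho] at hi
  rw [Matrix.sub_apply, Matrix.smul_apply, hX hio, smul_zero, sub_zero, dc, Matrix.sub_apply,
    Matrix.mul_apply, Matrix.mul_apply, Finset.sum_eq_zero, Finset.sum_eq_zero, sub_zero]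
  · intro b _
    rcases Nat.lt_or_ge (b : ℕ) 2 with h | h
    · rw [Matrix.sub_apply, h1, h2, hT.1 i b (Or.inr (by omega))]; simp
    · rw [hT.1 b o (Or.inr (by simp [ho]; omega)), mul_zero]
  · intro b _
    rcases Nat.lt_or_ge (b : ℕ) 2 with h | h
    · rw [hT.1 i b (Or.inr (by omega)), zero_mul]
    · rw [Matrix.sub_apply, h1, h2, hT.1 b o (Or.inr (by simp [ho]; omega))]; simp

/-- arithmetic progression -/
lemma dual_rel {T X : Matrix (Fin n) (Fin n) K} (hX : X.IsDiag) (hT : IrredTridiag T)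
    {ω η : K} (h : dc T X = (4 : K) • X + ω • T + η • 1) :
    ∃ δ κ : K, dc X T = δ • T + ω • X + κ • 1 := by
  have h1 : ∀ M : Matrix (Fin n) (Fin n) K, ∀ i j, (X * M) i j = X i i * M i j := by
    intro M i j
    rw [Matrix.mul_apply, Finset.sum_eq_single i]
    · intro b _ hb; rw [hX hb.symm, zero_mul]
    · simp
  have h2 : ∀ M : Matrix (Fin n) (Fin n) K, ∀ i j, (M * X) i j = M i j * X j j := by
    intro M i j
    rw [Matrix.mul_apply, Finset.sum_eq_single j]
    · intro b _ hb; rw [hX hb, mul_zero]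
    · simp
  -- the eigenvalues are in arithmetic progression
  have step2 : ∀ i : ℕ, ∀ hi : i + 2 < n, X ⟨i + 2, hi⟩ ⟨i + 2, hi⟩ - X ⟨i + 1, by omega⟩ ⟨i + 1, by omega⟩
      = X ⟨i + 1, by omega⟩ ⟨i + 1, by omega⟩ - X ⟨i, by omega⟩ ⟨i, by omega⟩ := by
    intro i hi
    have h3 := congr_fun (congr_fun h ⟨i, by omega⟩) ⟨i + 2, hi⟩
    rw [Matrix.add_apply, Matrix.add_apply, Matrix.smul_apply, Matrix.smul_apply,
      Matrix.smul_apply, hX (by simp), hT.1 _ _ (Or.inl (by simp)),
      Matrix.one_apply_ne (by simp)] at h3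
    rw [dc, Matrix.sub_apply, Matrix.mul_apply, Matrix.mul_apply,
      Finset.sum_eq_single (⟨i + 1, by omega⟩ : Fin n),
      Finset.sum_eq_single (⟨i + 1, by omega⟩ : Fin n), Matrix.sub_apply, Matrix.sub_apply,
      h1, h2, h1, h2] at h3
    · have ha := hT.2 ⟨i, by omega⟩ ⟨i + 1, by omega⟩ (Or.inl (by simp))
      have hb := hT.2 ⟨i + 1, by omega⟩ ⟨i + 2, hi⟩ (Or.inl (by simp))
      have hab := mul_ne_zero ha hb
      apply mul_left_cancel₀ hab
      simp only [smul_zero, add_zero] at h3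
      linear_combination h3
    · intro b _ hb
      have hb' : (b : ℕ) ≠ i + 1 := fun h => hb (Fin.ext h)
      rcases Nat.lt_or_ge (b : ℕ) (i + 1) with h | h
      · rw [hT.1 b ⟨i + 2, hi⟩ (Or.inl (by simp; omega)), mul_zero]
      · rw [Matrix.sub_apply, h1, h2, hT.1 ⟨i, by omega⟩ b (Or.inl (by simp; omega))]; simp
    · simp
    · intro b _ hb
      have hb' : (b : ℕ) ≠ i + 1 := fun h => hb (Fin.ext h)
      rcases Nat.lt_or_ge (b : ℕ) (i + 1) with h | h
      · rw [Matrix.sub_apply, h1, h2, hT.1 b ⟨i + 2, hi⟩ (Or.inl (by simp; omega))]; simp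
      · rw [hT.1 ⟨i, by omega⟩ b (Or.inl (by simp; omega)), zero_mul]
    · simp
  -- diagonal entries of T
  have step1 : ∀ i : ℕ, ∀ hi : i + 1 < n,
      (X ⟨i + 1, hi⟩ ⟨i + 1, hi⟩ - X ⟨i, by omega⟩ ⟨i, by omega⟩)
        * (T ⟨i, by omega⟩ ⟨i, by omega⟩ - T ⟨i + 1, hi⟩ ⟨i + 1, hi⟩) = ω := by
    intro i hi
    have h3 := congr_fun (congr_fun h ⟨i, by omega⟩) ⟨i + 1, hi⟩
    rw [Matrix.add_apply, Matrix.add_apply, Matrix.smul_apply, Matrix.smul_apply,
      Matrix.smul_apply, hX (by simp), Matrix.one_apply_ne (by simp)] at h3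
    have ha := hT.2 ⟨i, by omega⟩ ⟨i + 1, by omega⟩ (Or.inl (by simp))
    have hne : (⟨i, by omega⟩ : Fin n) ≠ ⟨i + 1, hi⟩ := by simp
    rw [dc, Matrix.sub_apply, Matrix.mul_apply, Matrix.mul_apply,
      ← Finset.add_sum_erase _ _ (Finset.mem_univ (⟨i, by omega⟩ : Fin n)),
      ← Finset.add_sum_erase _ _ (Finset.mem_erase.mpr ⟨hne.symm, Finset.mem_univ _⟩),
      Finset.sum_eq_zero,
      ← Finset.add_sum_erase (a := (⟨i, by omega⟩ : Fin n)) _ _ (Finset.mem_univ _),
      ← Finset.add_sum_erase _ _ (Finset.mem_erase.mpr ⟨hne.symm, Finset.mem_univ _⟩),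
      Finset.sum_eq_zero] at h3
    · simp only [Matrix.sub_apply, h1, h2] at h3
      simp only [smul_zero, smul_eq_mul, add_zero, zero_add] at h3
      apply mul_right_cancel₀ ha
      linear_combination h3
    · intro b hb
      simp only [Finset.mem_erase, Finset.mem_univ, and_true] at hb
      have hb' : (b : ℕ) ≠ i + 1 := fun h => hb.1 (Fin.ext h)
      have hb'' : (b : ℕ) ≠ i := fun h => hb.2 (Fin.ext h)
      rcases Nat.lt_or_ge (b : ℕ) i with h | h
      · rw [hT.1 b ⟨i + 1, hi⟩ (Or.inl (by simp; omega)), mul_zero]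
      · rw [Matrix.sub_apply, h1, h2, hT.1 ⟨i, by omega⟩ b (Or.inl (by simp; omega))]; simp
    · intro b hb
      simp only [Finset.mem_erase, Finset.mem_univ, and_true] at hb
      have hb' : (b : ℕ) ≠ i + 1 := fun h => hb.1 (Fin.ext h)
      have hb'' : (b : ℕ) ≠ i := fun h => hb.2 (Fin.ext h)
      rcases Nat.lt_or_ge (b : ℕ) i with h | h
      · rw [Matrix.sub_apply, h1, h2, hT.1 b ⟨i + 1, hi⟩ (Or.inl (by simp; omega))]; simp
      · rw [hT.1 ⟨i, by omega⟩ b (Or.inl (by simp; omega)), zero_mul]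
  -- the common difference
  obtain ⟨e, he⟩ : ∃ e : K, ∀ i : ℕ, ∀ hi : i + 1 < n,
      X ⟨i + 1, hi⟩ ⟨i + 1, hi⟩ - X ⟨i, by omega⟩ ⟨i, by omega⟩ = e := by
    by_cases hn : 1 < n
    · refine ⟨X ⟨1, hn⟩ ⟨1, hn⟩ - X ⟨0, by omega⟩ ⟨0, by omega⟩, ?_⟩
      intro i
      induction i with
      | zero => intro hi; rfl
      | succ i ih =>
        intro hi
        rw [step2 i hi, ih (by omega)]
    · exact ⟨0, fun i hi => absurd hi (by omega)⟩
  -- conclusion
  have hconst : ∀ i : ℕ, ∀ hi : i < n, ∀ h0 : 0 < n,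
      - e ^ 2 * T ⟨i, hi⟩ ⟨i, hi⟩ - ω * X ⟨i, hi⟩ ⟨i, hi⟩ =
      - e ^ 2 * T ⟨0, h0⟩ ⟨0, h0⟩ - ω * X ⟨0, h0⟩ ⟨0, h0⟩ := by
    intro i
    induction i with
    | zero => intro _ _; rfl
    | succ i ih =>
      intro hi h0
      rw [← ih (by omega) h0]
      have a1 := step1 i hi
      have a2 := he i hi
      rw [a2] at a1
      linear_combination e * a1 - ω * a2
  by_cases h0 : 0 < n
  · refine ⟨e ^ 2, - e ^ 2 * T ⟨0, h0⟩ ⟨0, h0⟩ - ω * X ⟨0, h0⟩ ⟨0, h0⟩, ?_⟩
    ext i j
    rw [dc_diag_apply hX, Matrix.add_apply, Matrix.add_apply, Matrix.smul_apply, Matrix.smul_apply,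
      Matrix.smul_apply]
    by_cases hij : i = j
    · subst hij
      rw [← hconst i i.2 h0]
      simp
    · have hij' : (i : ℕ) ≠ j := fun h => hij (Fin.ext h)
      rw [hX hij, Matrix.one_apply_ne hij]
      by_cases h3 : (i : ℕ) + 1 = j
      · have := he i (by omega)
        have hj : j = ⟨i + 1, by omega⟩ := Fin.ext h3.symm
        rw [hj]
        simp only [smul_eq_mul, mul_zero, add_zero]
        rw [← this]
        ring
      · by_cases h4 : (j : ℕ) + 1 = i
        · have := he j (by omega)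
          have hi : i = ⟨j + 1, by omega⟩ := Fin.ext h4.symm
          rw [hi]
          simp only [smul_eq_mul, mul_zero, add_zero]
          rw [← this]
        · rw [hT.1 i j (by omega)]; simp
  · refine ⟨0, 0, ?_⟩
    ext i
    exact absurd i.2 (by omega)

end Pool.Agent.NH17.Leo
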